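import Pool.Agent.Lib.MP_659547_nt.Val

/-!
# Orders of the products occurring in the sum
-/

set_option autoImplicit false

namespace Pool.Agent.Lib.MP_659547_nt

open Finset Polynomial

lemma exists_shift {d : ℕ} (hd : 1 < d) (hodd : d % 2 = 1) (r : ℕ) :
    ∃ t, t < d ∧ ∀ N : ℕ, (d ∣ r + 4 * N ↔ d ∣ N + 1 + t) := by
  have hcop : Nat.Coprime 4 d := by
    have : Nat.Coprime 2 d := by
      rw [Nat.coprime_two_left, Nat.odd_iff]; exact hodd
    exact Nat.Coprime.pow_left 2 this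
  obtain ⟨m, hm⟩ := Nat.exists_mul_mod_eq_one_of_coprime hcop hd
  refine ⟨(r * m + (d - 1)) % d, Nat.mod_lt _ (by omega), ?_⟩
  intro N
  have h4 : (4 : ZMod d) * m = 1 := by
    have h1 : ((4 * m : ℕ) : ZMod d) = ((1 : ℕ) : ZMod d) := by
      rw [ZMod.natCast_eq_natCast_iff']
      rw [hm.2, Nat.mod_eq_of_lt hd]
    push_cast at h1; exact h1
  rw [← ZMod.natCast_eq_zero_iff, ← ZMod.natCast_eq_zero_iff]
  have ht : (((r * m + (d - 1)) % d : ℕ) : ZMod d) = r * m - 1 := by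
    rw [ZMod.natCast_mod]
    have : (d - 1 : ℕ) = d - 1 := rfl
    push_cast [Nat.cast_sub (by omega : 1 ≤ d)]
    simp
    ring
  push_cast [ht]
  constructor
  · intro h
    linear_combination (m : ZMod d) * h - N * h4
  · intro h
    linear_combination 4 * h - (r : ZMod d) * h4

lemma shift_four {d : ℕ} (hodd : d % 2 = 1) (N : ℕ) : (d ∣ 4 + 4 * N ↔ d ∣ N + 1 + 0) := by
  have hcop : Nat.Coprime d 4 := by
    have : Nat.Coprime d 2 := by
      rw [Nat.coprime_two_right, Nat.odd_iff]; exact hodd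
    exact Nat.Coprime.pow_right 2 this
  rw [show 4 + 4 * N = 4 * (N + 1) by ring, add_zero]
  exact hcop.dvd_mul_left

section

variable {d : ℕ} (hd : 1 < d)

include hd

lemma prod_u_dv (r : ℕ) (e : ℤ) (he : (d : ℤ) ∣ e) (t : ℕ) (ht : t < d)
    (hrt : ∀ N : ℕ, (d ∣ r + 4 * N ↔ d ∣ N + 1 + t)) (N : ℕ) :
    Dv d (((N + t) / d : ℕ) : ℤ) (∏ i ∈ range N, u (r + 4 * i + e)) := by
  induction N with
  | zero =>
    rw [range_zero, prod_empty, zero_add, Nat.div_eq_of_lt ht]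
    exact dv_one hd
  | succ N ih =>
    rw [prod_range_succ]
    have h1 : (N + 1 + t) / d = (N + t) / d + if d ∣ N + 1 + t then 1 else 0 := by
      rw [show N + 1 + t = (N + t) + 1 by ring]
      exact Nat.succ_div
    rw [h1]
    by_cases h : d ∣ N + 1 + t
    · rw [if_pos h]
      have h2 : (d : ℤ) ∣ (r : ℤ) + 4 * N + e := by
        apply dvd_add _ he
        exact_mod_cast (hrt N).mpr h
      exact dv_mul' hd ih (dv_u_of_dvd hd h2) (by push_cast; ring)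
    · rw [if_neg h]
      exact dv_mul' hd ih (dv_u hd _) (by push_cast; ring)

lemma prod_u_inv_dv (r : ℕ) (e : ℤ) (he : (d : ℤ) ∣ e) (t : ℕ) (ht : t < d)
    (hrt : ∀ N : ℕ, (d ∣ r + 4 * N ↔ d ∣ N + 1 + t)) (N : ℕ) :
    Dv d (-(((N + t) / d : ℕ) : ℤ)) (∏ i ∈ range N, (u (r + 4 * i + e))⁻¹) := by
  induction N with
  | zero =>
    rw [range_zero, prod_empty, zero_add, Nat.div_eq_of_lt ht]
    exact dv_one hd
  | succ N ih =>
    rw [prod_range_succ]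
    have h1 : (N + 1 + t) / d = (N + t) / d + if d ∣ N + 1 + t then 1 else 0 := by
      rw [show N + 1 + t = (N + t) + 1 by ring]
      exact Nat.succ_div
    rw [h1]
    by_cases h : d ∣ N + 1 + t
    · rw [if_pos h]
      exact dv_mul' hd ih (dv_u_inv' hd _) (by push_cast; ring)
    · rw [if_neg h]
      have h2 : ¬ (d : ℤ) ∣ (r : ℤ) + 4 * N + e := by
        intro h3
        apply h
        rw [← hrt N]
        have h4 : (d : ℤ) ∣ (r : ℤ) + 4 * N := (dvd_add_left he).mp h3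
        exact_mod_cast h4
      exact dv_mul' hd ih (dv_u_inv hd h2) (by push_cast; ring)

end

/-- `f_k(q^e)` -/
noncomputable def f (e : ℤ) (k : ℕ) : RatFunc ℚ := ff RatFunc.X (RatFunc.X ^ e) k

/-- The `i`-th factor of `f_k(q^e)`. -/
noncomputable def R (e : ℤ) (i : ℕ) : RatFunc ℚ :=
  u (1 + 4 * i + e) * u (1 + 4 * i - e) * ((u (4 + 4 * i + e))⁻¹ * (u (4 + 4 * i - e))⁻¹)

lemma f_eq (e : ℤ) (k : ℕ) : f e k = ∏ i ∈ range k, R e i := by
  unfold f ff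
  apply prod_congr rfl
  intro i _
  unfold phi R u
  have hX := X_ne
  have e1 : (RatFunc.X : RatFunc ℚ) ^ (1 + 4 * (i : ℤ) + e) =
      RatFunc.X * RatFunc.X ^ (4 * i) * RatFunc.X ^ e := by
    rw [zpow_add₀ hX, zpow_add₀ hX, zpow_one]; congr 2
  have e2 : (RatFunc.X : RatFunc ℚ) ^ (1 + 4 * (i : ℤ) - e) =
      RatFunc.X * RatFunc.X ^ (4 * i) * (RatFunc.X ^ e)⁻¹ := by
    rw [sub_eq_add_neg, zpow_add₀ hX, zpow_add₀ hX, zpow_one, zpow_neg]; congr 2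
  have e3 : (RatFunc.X : RatFunc ℚ) ^ (4 + 4 * (i : ℤ) + e) =
      RatFunc.X ^ 4 * RatFunc.X ^ (4 * i) * RatFunc.X ^ e := by
    rw [zpow_add₀ hX, zpow_add₀ hX]; congr 2
  have e4 : (RatFunc.X : RatFunc ℚ) ^ (4 + 4 * (i : ℤ) - e) =
      RatFunc.X ^ 4 * RatFunc.X ^ (4 * i) * (RatFunc.X ^ e)⁻¹ := by
    rw [sub_eq_add_neg, zpow_add₀ hX, zpow_add₀ hX, zpow_neg]; congr 2
  rw [e1, e2, e3, e4, mul_inv]

lemma f_zero (e : ℤ) : f e 0 = 1 := by rw [f_eq]; simp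

lemma f_add (e : ℤ) (a b : ℕ) : f e (a + b) = f e a * ∏ i ∈ range b, R e (a + i) := by
  rw [f_eq, f_eq, prod_range_add]

lemma f_vanish (N k : ℕ) (h : N < k) : f (4 * N + 1) k = 0 := by
  rw [f_eq]
  apply prod_eq_zero (mem_range.mpr h)
  unfold R
  rw [show (1 : ℤ) + 4 * N - (4 * N + 1) = 0 by ring, u_zero]
  ring

section

variable {d : ℕ} (hd : 1 < d) (hodd : d % 2 = 1)

include hd hodd

lemma f_dv (e : ℤ) (he : (d : ℤ) ∣ e) (t : ℕ) (ht : t < d)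
    (h1 : ∀ N : ℕ, (d ∣ 1 + 4 * N ↔ d ∣ N + 1 + t)) (k : ℕ) :
    Dv d (2 * (((k + t) / d : ℕ) : ℤ) - 2 * ((k / d : ℕ) : ℤ)) (f e k) := by
  rw [f_eq]
  unfold R
  rw [prod_mul_distrib, prod_mul_distrib, prod_mul_distrib]
  have a1 := prod_u_dv hd 1 e he t ht h1 k
  have a2 := prod_u_dv hd 1 (-e) ((Int.dvd_neg).mpr he) t ht h1 k
  have a3 := prod_u_inv_dv hd 4 e he 0 (by omega) (shift_four hodd) k
  have a4 := prod_u_inv_dv hd 4 (-e) ((Int.dvd_neg).mpr he) 0 (by omega) (shift_four hodd) k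
  push_cast at a1 a2 a3 a4
  simp only [← sub_eq_add_neg] at a2 a4
  rw [add_zero] at a3 a4
  have a5 := dv_mul hd (dv_mul hd a1 a2) (dv_mul hd a3 a4)
  refine dv_mono hd a5 ?_
  push_cast
  linarith

/-- `f_k(q^e)` is integral. -/
lemma f_dv_zero (e : ℤ) (he : (d : ℤ) ∣ e) (k : ℕ) : Dv d 0 (f e k) := by
  obtain ⟨t, ht, h1⟩ := exists_shift hd hodd 1
  refine dv_mono hd (f_dv hd hodd e he t ht h1 k) ?_
  have : k / d ≤ (k + t) / d := Nat.div_le_div_right (by omega)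
  omega

lemma f_inv_dv (e : ℤ) (he : (d : ℤ) ∣ e) (l : ℕ) : Dv d 0 (f e (l * d))⁻¹ := by
  obtain ⟨t, ht, h1⟩ := exists_shift hd hodd 1
  rw [f_eq, ← prod_inv_distrib]
  unfold R
  simp only [mul_inv, inv_inv]
  rw [prod_mul_distrib, prod_mul_distrib, prod_mul_distrib]
  have a1 := prod_u_inv_dv hd 1 e he t ht h1 (l * d)
  have a2 := prod_u_inv_dv hd 1 (-e) ((Int.dvd_neg).mpr he) t ht h1 (l * d)
  have a3 := prod_u_dv hd 4 e he 0 (by omega) (shift_four hodd) (l * d)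
  have a4 := prod_u_dv hd 4 (-e) ((Int.dvd_neg).mpr he) 0 (by omega) (shift_four hodd) (l * d)
  push_cast at a1 a2 a3 a4
  simp only [← sub_eq_add_neg] at a2 a4
  have e1 : (l * d + t) / d = l := by
    rw [mul_comm, Nat.mul_add_div (by omega), Nat.div_eq_of_lt ht, add_zero]
  have e2 : (l * d) / d = l := Nat.mul_div_cancel l (by omega)
  rw [add_zero, ] at a3 a4
  have a5 := dv_mul hd (dv_mul hd a1 a2) (dv_mul hd a3 a4)
  refine dv_mono hd a5 ?_
  have e1' : (((l * d + t) / d : ℕ) : ℤ) = l := by rw [e1]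
  have e2' : (((l * d) / d : ℕ) : ℤ) = l := by rw [e2]
  push_cast at e1' e2' ⊢
  rw [e1', e2']; ring_nf; exact le_rfl

/-- `c_k` has at most a simple pole. -/
lemma cc_dv (k : ℕ) : Dv d (-1) (cc (RatFunc.X : RatFunc ℚ) k) := by
  obtain ⟨t1, ht1, h1⟩ := exists_shift hd hodd 1
  obtain ⟨t2, ht2, h2⟩ := exists_shift hd hodd 2
  obtain ⟨t3, ht3, h3⟩ := exists_shift hd hodd 3
  have hX := X_ne
  have hgam : ∀ i : ℕ, gam (RatFunc.X : RatFunc ℚ) (RatFunc.X ^ (4 * i)) =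
      u ((1 : ℕ) + 4 * i + 0) * u ((2 : ℕ) + 4 * i + 0) * ((u ((4 : ℕ) + 4 * i + 0))⁻¹ *
        (u ((3 : ℕ) + 4 * i + 0))⁻¹) := by
    intro i
    unfold gam u
    have e1 : (RatFunc.X : RatFunc ℚ) ^ (((1 : ℕ) : ℤ) + 4 * (i : ℤ) + 0) =
        RatFunc.X * RatFunc.X ^ (4 * i) := by
      rw [add_zero, zpow_add₀ hX]; congr 1; exact zpow_one _
    have e2 : (RatFunc.X : RatFunc ℚ) ^ (((2 : ℕ) : ℤ) + 4 * (i : ℤ) + 0) =
        RatFunc.X ^ 2 * RatFunc.X ^ (4 * i) := by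
      rw [add_zero, zpow_add₀ hX]; congr 1
    have e3 : (RatFunc.X : RatFunc ℚ) ^ (((3 : ℕ) : ℤ) + 4 * (i : ℤ) + 0) =
        RatFunc.X ^ 3 * RatFunc.X ^ (4 * i) := by
      rw [add_zero, zpow_add₀ hX]; congr 1
    have e4 : (RatFunc.X : RatFunc ℚ) ^ (((4 : ℕ) : ℤ) + 4 * (i : ℤ) + 0) =
        RatFunc.X ^ 4 * RatFunc.X ^ (4 * i) := by
      rw [add_zero, zpow_add₀ hX]; congr 1
    rw [e1, e2, e3, e4, mul_inv]
  unfold cc
  rw [prod_congr rfl (fun i _ => hgam i), prod_mul_distrib, prod_mul_distrib, prod_mul_distrib]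
  have a1 := prod_u_dv hd 1 0 (dvd_zero _) t1 ht1 h1 k
  have a2 := prod_u_dv hd 2 0 (dvd_zero _) t2 ht2 h2 k
  have a3 := prod_u_inv_dv hd 3 0 (dvd_zero _) t3 ht3 h3 k
  have a4 := prod_u_inv_dv hd 4 0 (dvd_zero _) 0 (by omega) (shift_four hodd) k
  have a5 := dv_mul hd (dv_mul hd a1 a2) (dv_mul hd a4 a3)
  have b1 : Dv d 0 ((RatFunc.X : RatFunc ℚ) ^ (4 * k)) := by
    have := dv_zpow hd ((4 * k : ℕ) : ℤ)
    rwa [zpow_natCast] at this
  have b2 : Dv d 0 (1 - (RatFunc.X : RatFunc ℚ) ^ (8 * k + 1)) := by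
    have := dv_u hd ((8 * k + 1 : ℕ) : ℤ)
    unfold u at this
    rwa [zpow_natCast] at this
  have b3 : Dv d 0 ((1 - (RatFunc.X : RatFunc ℚ))⁻¹) := by
    have := dv_u_inv_nat hd (m := 1) (by
      intro h; have := Nat.le_of_dvd (by omega) h; omega)
    unfold u at this
    rwa [zpow_natCast, pow_one] at this
  have b4 := dv_mul hd (dv_mul hd b1 (dv_mul hd b2 b3)) a5
  refine dv_mono hd b4 ?_
  have c1 : k / d ≤ (k + t1) / d := Nat.div_le_div_right (by omega)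
  have c2 : k / d ≤ (k + t2) / d := Nat.div_le_div_right (by omega)
  have c3 : (k + t3) / d ≤ k / d + 1 := by
    calc (k + t3) / d ≤ (k + d) / d := Nat.div_le_div_right (by omega)
      _ = k / d + 1 := Nat.add_div_right k (by omega)
  have c4 : (k + 0) / d = k / d := by rw [add_zero]
  rw [c4]
  omega

end

end Pool.Agent.Lib.MP_659547_nt
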