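import Mathlib

/-!
# A terminating very-well-poised sum

We prove, by the WZ method, the instance of Jackson's `q`-analogue of Dougall's sum which is used
for the `q`-congruence: base `q^4`, parameter `a = q`, and the pairs `(q x, q / x)`,
`(q y, q / y)`, `(q, q^2)` with `x = q^{4N+1}`.
-/

set_option autoImplicit false

namespace Pool.Agent.Lib.MP_659547_nt

open Finset

variable {F : Type*} [Field F]

/-- The factor attached to a pair of parameters `(q x, q / x)`. -/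
def phi (q x Y : F) : F :=
  (1 - q * Y * x) * (1 - q * Y * x⁻¹) * ((1 - q ^ 4 * Y * x) * (1 - q ^ 4 * Y * x⁻¹))⁻¹

/-- The factor attached to the remaining parameters. -/
def gam (q Y : F) : F := (1 - q * Y) * (1 - q ^ 2 * Y) * ((1 - q ^ 4 * Y) * (1 - q ^ 3 * Y))⁻¹

/-- `f_k(x)` -/
def ff (q x : F) (k : ℕ) : F := ∏ i ∈ range k, phi q x (q ^ (4 * i))

/-- `c_k` -/
def cc (q : F) (k : ℕ) : F :=
  q ^ (4 * k) * ((1 - q ^ (8 * k + 1)) * (1 - q)⁻¹) * ∏ i ∈ range k, gam q (q ^ (4 * i))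

/-- The factor of the closed form. -/
def eps (q y Y : F) : F :=
  (1 - q ^ 2 * Y * y) * (1 - q ^ 2 * Y * y⁻¹) * ((1 - q ^ 4 * Y * y) * (1 - q ^ 4 * Y * y⁻¹))⁻¹

/-- Closed form. -/
def EE (q y : F) (N : ℕ) : F :=
  (1 - q ^ (4 * N + 1)) * (1 - q)⁻¹ * ∏ i ∈ range N, eps q y (q ^ (4 * i))

section identities

variable (q y Z K : F)

def sg : F := (1 - q ^ 2 * Z * K) * (1 - q ^ 4 * Z) * (K - q * Z) * (1 - q ^ 5 * Z) *
  ((1 - q ^ 2 * Z) * (K - q ^ 4 * Z) * (1 - q * Z) * (1 - q ^ 5 * Z * K))⁻¹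

def ep : F := (1 - q ^ 5 * Z) * (1 - q ^ 2 * y * Z) * (y - q ^ 2 * Z) *
  ((1 - q * Z) * (1 - q ^ 4 * y * Z) * (y - q ^ 4 * Z))⁻¹

def kp : F := -(q * Z * (1 + q ^ 3 * Z) * (1 - q ^ 5 * Z) * (1 - q ^ 2 * Z * K) *
  (1 - q * y * K) * (y - q * K) * (1 - q * K) * (1 - q ^ 2 * K) *
  ((1 - q * Z) * (1 - q ^ 2 * Z) * (1 - q ^ 4 * y * Z) * (y - q ^ 4 * Z) * K *
    (1 - q * K ^ 2) * (1 - q ^ 5 * Z * K))⁻¹)

def rr : F := -(q ^ 3 * Z * (1 + q ^ 3 * Z) * (1 - q ^ 5 * Z) * (1 - K) * (q - K) * (y - K) *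
  (1 - y * K) * (K - q * Z) *
  ((1 - q * Z) * (1 - q ^ 2 * Z) * (1 - q ^ 4 * y * Z) * (y - q ^ 4 * Z) * K *
    (1 - q * K ^ 2) * (K - q ^ 4 * Z))⁻¹)

lemma star_aux (a b c d f g h : F) (ha : a = 1 - q * Z) (hb : b = 1 - q ^ 2 * Z)
    (hc : c = 1 - q ^ 4 * y * Z) (hd : d = y - q ^ 4 * Z) (hf : f = 1 - q * K ^ 2)
    (hg : g = K - q ^ 4 * Z) (hh : h = 1 - q ^ 5 * Z * K)
    (ha0 : a ≠ 0) (hb0 : b ≠ 0) (hc0 : c ≠ 0) (hd0 : d ≠ 0) (hf0 : f ≠ 0) (hg0 : g ≠ 0)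
    (hh0 : h ≠ 0) (hK : K ≠ 0) :
    (1 - q ^ 2 * Z * K) * (1 - q ^ 4 * Z) * (K - q * Z) * (1 - q ^ 5 * Z) *
      (b * g * a * h)⁻¹ - (1 - q ^ 5 * Z) * (1 - q ^ 2 * y * Z) * (y - q ^ 2 * Z) *
      (a * c * d)⁻¹ = -(q * Z * (1 + q ^ 3 * Z) * (1 - q ^ 5 * Z) * (1 - q ^ 2 * Z * K) *
      (1 - q * y * K) * (y - q * K) * (1 - q * K) * (1 - q ^ 2 * K) *
      (a * b * c * d * K * f * h)⁻¹) - -(q ^ 3 * Z * (1 + q ^ 3 * Z) * (1 - q ^ 5 * Z) *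
      (1 - K) * (q - K) * (y - K) * (1 - y * K) * (K - q * Z) *
      (a * b * c * d * K * f * g)⁻¹) := by
  have key : (1 - q ^ 2 * Z * K) * (1 - q ^ 4 * Z) * (K - q * Z) * (1 - q ^ 5 * Z) *
      (c * d * K * f)
      - (1 - q ^ 5 * Z) * (1 - q ^ 2 * y * Z) * (y - q ^ 2 * Z) * (b * K * f * g * h) =
      -(q * Z * (1 + q ^ 3 * Z) * (1 - q ^ 5 * Z) * (1 - q ^ 2 * Z * K) *
      (1 - q * y * K) * (y - q * K) * (1 - q * K) * (1 - q ^ 2 * K) * g) +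
      (q ^ 3 * Z * (1 + q ^ 3 * Z) * (1 - q ^ 5 * Z) * (1 - K) * (q - K) * (y - K) *
      (1 - y * K) * (K - q * Z) * h) := by
    subst ha hb hc hd hf hg hh
    ring
  have hD : a * b * c * d * K * f * g * h ≠ 0 := by positivity
  have e1 : (b * g * a * h)⁻¹ = (c * d * K * f) * (a * b * c * d * K * f * g * h)⁻¹ := by
    rw [eq_mul_inv_iff_mul_eq₀ hD, inv_mul_eq_iff_eq_mul₀ (by positivity)]
    try ring
  have e2 : (a * c * d)⁻¹ = (b * K * f * g * h) * (a * b * c * d * K * f * g * h)⁻¹ := by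
    rw [eq_mul_inv_iff_mul_eq₀ hD, inv_mul_eq_iff_eq_mul₀ (by positivity)]
    try ring
  have e3 : (a * b * c * d * K * f * h)⁻¹ = g * (a * b * c * d * K * f * g * h)⁻¹ := by
    rw [eq_mul_inv_iff_mul_eq₀ hD, inv_mul_eq_iff_eq_mul₀ (by positivity)]
    try ring
  have e4 : (a * b * c * d * K * f * g)⁻¹ = h * (a * b * c * d * K * f * g * h)⁻¹ := by
    rw [eq_mul_inv_iff_mul_eq₀ hD, inv_mul_eq_iff_eq_mul₀ (by positivity)]
    try ring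
  rw [e1, e2, e3, e4]
  generalize (a * b * c * d * K * f * g * h)⁻¹ = w at *
  linear_combination w * key

lemma star (h1 : 1 - q * Z ≠ 0) (h2 : 1 - q ^ 2 * Z ≠ 0) (h3 : 1 - q ^ 4 * y * Z ≠ 0)
    (h4 : y - q ^ 4 * Z ≠ 0) (h5 : K ≠ 0) (h6 : 1 - q * K ^ 2 ≠ 0) (h7 : K - q ^ 4 * Z ≠ 0)
    (h8 : 1 - q ^ 5 * Z * K ≠ 0) :
    sg q Z K - ep q y Z = kp q y Z K - rr q y Z K := by
  unfold sg ep kp rr
  exact star_aux q y Z K _ _ _ _ _ _ _ rfl rfl rfl rfl rfl rfl rfl h1 h2 h3 h4 h6 h7 h8 h5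

lemma phi_eq (x Y : F) (hx : x ≠ 0) : phi q x Y =
    (1 - q * Y * x) * (x - q * Y) * ((1 - q ^ 4 * Y * x) * (x - q ^ 4 * Y))⁻¹ := by
  unfold phi
  have h1 : 1 - q * Y * x⁻¹ = (x - q * Y) * x⁻¹ := by field_simp
  have h2 : 1 - q ^ 4 * Y * x⁻¹ = (x - q ^ 4 * Y) * x⁻¹ := by field_simp
  rw [h1, h2, mul_inv, mul_inv, mul_inv, inv_inv]
  field_simp

lemma phi_x (hq : q ≠ 0) (hZ : Z ≠ 0) : phi q (q * Z) K =
    (1 - q ^ 2 * Z * K) * (Z - K) * ((1 - q ^ 5 * Z * K) * (Z - q ^ 3 * K))⁻¹ := by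
  rw [phi_eq q _ _ (mul_ne_zero hq hZ)]
  have h1 : q * Z - q * K = q * (Z - K) := by ring
  have h2 : q * Z - q ^ 4 * K = q * (Z - q ^ 3 * K) := by ring
  have h3 : 1 - q * K * (q * Z) = 1 - q ^ 2 * Z * K := by ring
  have h4 : 1 - q ^ 4 * K * (q * Z) = 1 - q ^ 5 * Z * K := by ring
  rw [h1, h2, h3, h4, mul_inv, mul_inv, mul_inv]
  field_simp

/-- the ratio `t_{k+1} / t_k` -/
def tau : F := q ^ 4 * ((1 - q ^ 9 * K ^ 2) * (1 - q * K ^ 2)⁻¹) * gam q K * phi q (q * Z) K *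
  phi q y K

lemma sg_phi (hq : q ≠ 0) (hZ : Z ≠ 0) (h7 : K - q ^ 4 * Z ≠ 0)
    (h9 : q ^ 4 * Z - q ^ 3 * K ≠ 0) (h10 : 1 - q ^ 9 * Z * K ≠ 0)
    (h8 : 1 - q ^ 5 * Z * K ≠ 0) (h11 : q ^ 4 * K - q ^ 4 * Z ≠ 0) (h12 : Z - q ^ 3 * K ≠ 0) :
    sg q Z K * phi q (q * (q ^ 4 * Z)) K = phi q (q * Z) K * sg q Z (q ^ 4 * K) := by
  rw [phi_x q _ _ hq (mul_ne_zero (pow_ne_zero 4 hq) hZ), phi_x q _ _ hq hZ]
  unfold sg
  have e1 : q ^ 4 * Z - K = -(K - q ^ 4 * Z) := by ring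
  have e2 : q ^ 4 * Z - q ^ 3 * K = - q ^ 3 * (K - q * Z) := by ring
  have e3 : q ^ 4 * K - q ^ 4 * Z = q ^ 4 * (K - Z) := by ring
  have e4 : 1 - q ^ 2 * (q ^ 4 * Z) * K = 1 - q ^ 6 * Z * K := by ring
  have e5 : 1 - q ^ 2 * Z * (q ^ 4 * K) = 1 - q ^ 6 * Z * K := by ring
  have e6 : 1 - q ^ 5 * (q ^ 4 * Z) * K = 1 - q ^ 9 * Z * K := by ring
  have e7 : 1 - q ^ 5 * Z * (q ^ 4 * K) = 1 - q ^ 9 * Z * K := by ring
  have e8 : q ^ 4 * K - q * Z = - q * (Z - q ^ 3 * K) := by ring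
  have e9 : Z - K = - (K - Z) := by ring
  have h13 : K - q * Z ≠ 0 := by
    intro h; apply h9; rw [e2, h]; ring
  have h14 : K - Z ≠ 0 := by
    intro h; apply h11; rw [e3, h]; ring
  rw [e1, e2, e3, e4, e5, e6, e7, e8, e9]
  generalize (K - q ^ 4 * Z) = a at *
  generalize (K - q * Z) = b at *
  generalize (K - Z) = c at *
  generalize (1 - q ^ 6 * Z * K) = d at *
  generalize (1 - q ^ 9 * Z * K) = e at *
  generalize (1 - q ^ 5 * Z * K) = f at *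
  generalize (Z - q ^ 3 * K) = g at *
  generalize (1 - q ^ 2 * Z * K) = h at *
  simp only [mul_inv, inv_neg, neg_mul, mul_neg]
  field_simp

set_option maxHeartbeats 4000000 in
lemma tau_rr (hq : q ≠ 0) (hZ : Z ≠ 0) (hK : K ≠ 0) (hy : y ≠ 0)
    (h1 : 1 - q ^ 9 * K ^ 2 ≠ 0) (h2 : 1 - q ^ 4 * K ≠ 0) (h3 : 1 - q ^ 3 * K ≠ 0)
    (h4 : Z - q ^ 3 * K ≠ 0) (h5 : 1 - q ^ 4 * K * y ≠ 0) (h6 : y - q ^ 4 * K ≠ 0)
    (h7 : Z - K ≠ 0) :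
    tau q y Z K * rr q y Z (q ^ 4 * K) = kp q y Z K := by
  unfold tau gam rr kp
  rw [phi_x q _ _ hq hZ, phi_eq q y K hy]
  have e1 : q - q ^ 4 * K = q * (1 - q ^ 3 * K) := by ring
  have e2 : 1 - y * (q ^ 4 * K) = 1 - q ^ 4 * K * y := by ring
  have e3 : q ^ 4 * K - q * Z = - q * (Z - q ^ 3 * K) := by ring
  have e4 : 1 - q * (q ^ 4 * K) ^ 2 = 1 - q ^ 9 * K ^ 2 := by ring
  have e5 : q ^ 4 * K - q ^ 4 * Z = - q ^ 4 * (Z - K) := by ring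
  have e6 : 1 - q * K * y = 1 - q * y * K := by ring
  rw [e1, e2, e3, e4, e5, e6]
  generalize (1 - q ^ 9 * K ^ 2) = a at *
  generalize (1 - q ^ 4 * K) = b at *
  generalize (1 - q ^ 3 * K) = c at *
  generalize (Z - q ^ 3 * K) = d at *
  generalize (1 - q ^ 4 * K * y) = e at *
  generalize (y - q ^ 4 * K) = f at *
  generalize (Z - K) = g at *
  generalize (1 - q * K ^ 2) = h at *
  generalize (1 - q ^ 5 * Z * K) = i at *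
  generalize (1 - q * Z) = j at *
  generalize (1 - q ^ 2 * Z) = k at *
  generalize (1 - q ^ 4 * y * Z) = l at *
  generalize (y - q ^ 4 * Z) = m at *
  generalize (1 - q ^ 2 * Z * K) = n at *
  generalize (1 - q * y * K) = o at *
  generalize (y - q * K) = p at *
  generalize (1 - q * K) = r at *
  generalize (1 - q ^ 2 * K) = s at *
  simp only [mul_inv, inv_neg, neg_mul, mul_neg]
  field_simp

set_option maxHeartbeats 4000000 in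
lemma final_step (hq : q ≠ 0) (hZ : Z ≠ 0) (hy : y ≠ 0)
    (h2 : 1 - q ^ 4 * Z ≠ 0) (h3 : 1 - q ^ 3 * Z ≠ 0) (h1 : 1 - q ^ 9 * Z ^ 2 ≠ 0)
    (h4 : 1 - q ^ 4 ≠ 0) (h5 : 1 - q ≠ 0) :
    sg q Z Z * tau q y (q ^ 4 * Z) Z = - kp q y Z Z := by
  unfold tau gam sg kp
  rw [phi_x q _ _ hq (mul_ne_zero (pow_ne_zero 4 hq) hZ), phi_eq q y Z hy]
  have e1 : q ^ 4 * Z - Z = - (Z * (1 - q ^ 4)) := by ring
  have e2 : q ^ 4 * Z - q ^ 3 * Z = - (q ^ 3 * Z * (1 - q)) := by ring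
  have e3 : 1 - q ^ 2 * (q ^ 4 * Z) * Z = (1 + q ^ 3 * Z) * (1 - q ^ 3 * Z) := by ring
  have e4 : 1 - q ^ 5 * (q ^ 4 * Z) * Z = 1 - q ^ 9 * Z ^ 2 := by ring
  have e5 : Z - q * Z = Z * (1 - q) := by ring
  have e6 : Z - q ^ 4 * Z = Z * (1 - q ^ 4) := by ring
  have e7 : 1 - q ^ 4 * Z * y = 1 - q ^ 4 * y * Z := by ring
  have e8 : 1 - q * Z * y = 1 - q * y * Z := by ring
  rw [e1, e2, e3, e4, e5, e6, e7, e8]
  generalize (1 - q ^ 9 * Z ^ 2) = a at *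
  generalize (1 - q ^ 4 * Z) = b at *
  generalize (1 - q ^ 3 * Z) = c at *
  generalize (1 - q ^ 4) = d at *
  generalize (1 - q ^ 4 * y * Z) = e at *
  generalize (y - q ^ 4 * Z) = f at *
  generalize (1 - q * Z ^ 2) = g at *
  generalize (1 - q ^ 5 * Z * Z) = i at *
  generalize (1 - q * Z) = j at *
  generalize (1 - q ^ 2 * Z) = k at *
  generalize (1 - q ^ 2 * Z * Z) = n at *
  generalize (1 - q * y * Z) = o at *
  generalize (y - q * Z) = p at *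
  generalize (1 - q) = r at *
  simp only [mul_inv, inv_neg, neg_mul, mul_neg]
  field_simp

end identities

end Pool.Agent.Lib.MP_659547_nt
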