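import Pool.Agent.Lib.MP_659547_nt.Count

/-!
# The order of the truncated sum at every primitive root of unity
-/

set_option autoImplicit false

namespace Pool.Agent.Lib.MP_659547_nt

open Finset Polynomial

section

variable {d : ℕ} (hd : 1 < d)

include hd

lemma cong_mul {a a' b b' : RatFunc ℚ} (ha : Dv d 0 a) (hb' : Dv d 0 b')
    (h : Dv d 1 (a - b)) (h' : Dv d 1 (a' - b')) : Dv d 1 (a * a' - b * b') := by
  have e : a * a' - b * b' = a * (a' - b') + (a - b) * b' := by ring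
  rw [e]
  exact dv_add hd (dv_mul' hd ha h' (by norm_num)) (dv_mul' hd h hb' (by norm_num))

lemma cong_inv {a b : RatFunc ℚ} (ha0 : a ≠ 0) (hb0 : b ≠ 0) (ha : Dv d 0 a⁻¹)
    (hb : Dv d 0 b⁻¹) (h : Dv d 1 (a - b)) : Dv d 1 (a⁻¹ - b⁻¹) := by
  have e : a⁻¹ - b⁻¹ = -((a - b) * (a⁻¹ * b⁻¹)) := by field_simp; ring
  rw [e]
  exact dv_neg (dv_mul' hd h (dv_mul' hd ha hb (by norm_num : (0 : ℤ) = 0 + 0)) (by norm_num))

end

section

variable {d : ℕ} (hd : 1 < d) (hodd : d % 2 = 1)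

include hd hodd

lemma not_dvd_four (e : ℤ) (he : (d : ℤ) ∣ e) (i : ℕ) (hi : i + 1 < d) :
    ¬ (d : ℤ) ∣ (4 + 4 * i + e) := by
  intro h
  have h1 : (d : ℤ) ∣ 4 + 4 * i := (dvd_add_left he).mp h
  have h2 : d ∣ 4 + 4 * i := by exact_mod_cast h1
  have h3 := (shift_four hodd i).mp h2
  have := Nat.le_of_dvd (by omega) h3
  omega

lemma dvd_four_ld (l i : ℕ) (e : ℤ) (he : (d : ℤ) ∣ e) (r : ℤ) :
    (d : ℤ) ∣ (r + 4 * ((l * d + i : ℕ) : ℤ) + e) - (r + 4 * i + 0) := by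
  have : (r + 4 * ((l * d + i : ℕ) : ℤ) + e) - (r + 4 * i + 0) = d * (4 * l) + e := by
    push_cast; ring
  rw [this]
  exact dvd_add (dvd_mul_right _ _) he

lemma R_dv (e : ℤ) (he : (d : ℤ) ∣ e) (l i : ℕ) (hi : i + 1 < d) : Dv d 0 (R e (l * d + i)) := by
  have h1 : ¬ (d : ℤ) ∣ (4 + 4 * ((l * d + i : ℕ) : ℤ) + e) := by
    have := not_dvd_four hd hodd (d * (4 * l) + e) (dvd_add (dvd_mul_right _ _) he) i hi
    convert this using 1; push_cast; ring_nf
  have h2 : ¬ (d : ℤ) ∣ (4 + 4 * ((l * d + i : ℕ) : ℤ) - e) := by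
    have := not_dvd_four hd hodd (d * (4 * l) - e) (dvd_sub (dvd_mul_right _ _) he) i hi
    convert this using 1; push_cast; ring_nf
  unfold R
  exact dv_mul' hd (dv_mul' hd (dv_u hd _) (dv_u hd _) (by norm_num : (0 : ℤ) = 0 + 0))
    (dv_mul' hd (dv_u_inv hd h1) (dv_u_inv hd h2) (by norm_num : (0 : ℤ) = 0 + 0)) (by norm_num)

lemma R_cong (e : ℤ) (he : (d : ℤ) ∣ e) (l i : ℕ) (hi : i + 1 < d) :
    Dv d 1 (R e (l * d + i) - R 0 i) := by
  have n1 : ¬ (d : ℤ) ∣ (4 + 4 * ((l * d + i : ℕ) : ℤ) + e) := by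
    have := not_dvd_four hd hodd (d * (4 * l) + e) (dvd_add (dvd_mul_right _ _) he) i hi
    convert this using 1; push_cast; ring_nf
  have n2 : ¬ (d : ℤ) ∣ (4 + 4 * ((l * d + i : ℕ) : ℤ) - e) := by
    have := not_dvd_four hd hodd (d * (4 * l) - e) (dvd_sub (dvd_mul_right _ _) he) i hi
    convert this using 1; push_cast; ring_nf
  have n3 : ¬ (d : ℤ) ∣ (4 + 4 * (i : ℤ) + 0) := not_dvd_four hd hodd 0 (dvd_zero _) i hi
  have n4 : ¬ (d : ℤ) ∣ (4 + 4 * (i : ℤ) - 0) := by simpa using n3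
  have ne : ∀ m : ℤ, ¬ (d : ℤ) ∣ m → u m ≠ 0 := fun m hm => u_ne (fun h => hm (h ▸ dvd_zero _))
  have hneg : (d : ℤ) ∣ -e := (Int.dvd_neg).mpr he
  have s1 : Dv d 1 (u (1 + 4 * ((l * d + i : ℕ) : ℤ) + e) - u (1 + 4 * i + 0)) :=
    dv_u_sub hd (dvd_four_ld hd hodd l i e he 1)
  have s2 : Dv d 1 (u (1 + 4 * ((l * d + i : ℕ) : ℤ) - e) - u (1 + 4 * i - 0)) :=
    dv_u_sub hd (by
      have := dvd_four_ld hd hodd l i (-e) hneg 1
      convert this using 1; ring)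
  have s3 : Dv d 1 ((u (4 + 4 * ((l * d + i : ℕ) : ℤ) + e))⁻¹ - (u (4 + 4 * i + 0))⁻¹) :=
    cong_inv hd (ne _ n1) (ne _ n3) (dv_u_inv hd n1) (dv_u_inv hd n3)
      (dv_u_sub hd (dvd_four_ld hd hodd l i e he 4))
  have s4 : Dv d 1 ((u (4 + 4 * ((l * d + i : ℕ) : ℤ) - e))⁻¹ - (u (4 + 4 * i - 0))⁻¹) :=
    cong_inv hd (ne _ n2) (ne _ n4) (dv_u_inv hd n2) (dv_u_inv hd n4)
      (dv_u_sub hd (by
        have := dvd_four_ld hd hodd l i (-e) hneg 4
        convert this using 1; ring))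
  unfold R
  refine cong_mul hd (dv_mul' hd (dv_u hd _) (dv_u hd _) (by norm_num : (0 : ℤ) = 0 + 0))
    (dv_mul' hd (dv_u_inv hd n3) (dv_u_inv hd n4) (by norm_num : (0 : ℤ) = 0 + 0)) ?_ ?_
  · exact cong_mul hd (dv_u hd _) (dv_u hd _) s1 s2
  · exact cong_mul hd (dv_u_inv hd n1) (dv_u_inv hd n4) s3 s4

lemma block_cong (e : ℤ) (he : (d : ℤ) ∣ e) (l j : ℕ) (hj : j < d) :
    Dv d 1 (f e (l * d + j) - f e (l * d) * f 0 j) := by
  rw [f_add, f_eq 0 j, ← mul_sub]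
  refine dv_mul' hd (f_dv_zero hd hodd e he _) ?_ (by norm_num : (1 : ℤ) = 0 + 1)
  induction j with
  | zero => simpa using dv_zero hd 1
  | succ j ih =>
    rw [prod_range_succ, prod_range_succ]
    refine cong_mul hd ?_ ?_ (ih (by omega)) (R_cong hd hodd e he l j (by omega))
    · clear ih
      induction j with
      | zero => simpa using dv_one hd
      | succ j ih =>
        rw [prod_range_succ]
        exact dv_mul' hd (ih (by omega)) (R_dv hd hodd e he l j (by omega))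
          (by norm_num : (0 : ℤ) = 0 + 0)
    · have := R_dv hd hodd 0 (dvd_zero _) 0 j (by omega)
      simpa using this

/-- The nodes: `e_i = 4 (N₀ + i d) + 1`. -/
lemma dvd_node (N₀ : ℕ) (hN : d ∣ 4 * N₀ + 1) (i : ℕ) :
    (d : ℤ) ∣ 4 * ((N₀ + i * d : ℕ) : ℤ) + 1 := by
  have : (4 * ((N₀ + i * d : ℕ) : ℤ) + 1) = ((4 * N₀ + 1 : ℕ) : ℤ) + d * (4 * i) := by
    push_cast; ring
  rw [this]
  exact dvd_add (by exact_mod_cast hN) (dvd_mul_right _ _)

lemma node_ne_zero (N m : ℕ) (h : m ≤ N) : f (4 * (N : ℤ) + 1) m ≠ 0 := by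
  rw [f_eq, prod_ne_zero_iff]
  intro i hi
  rw [mem_range] at hi
  unfold R
  have h1 : u (1 + 4 * (i : ℤ) + (4 * N + 1)) ≠ 0 := u_ne (by omega)
  have h2 : u (1 + 4 * (i : ℤ) - (4 * N + 1)) ≠ 0 := u_ne (by omega)
  have h3 : u (4 + 4 * (i : ℤ) + (4 * N + 1)) ≠ 0 := u_ne (by omega)
  have h4 : u (4 + 4 * (i : ℤ) - (4 * N + 1)) ≠ 0 := u_ne (by omega)
  positivity

/-- Every sequence with the block structure of `f` is, modulo `Φ_d`, a combination of the
sequences attached to the nodes. -/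
lemma span (N₀ : ℕ) (hN₀ : N₀ < d) (hN : d ∣ 4 * N₀ + 1) (m : ℕ) :
    ∀ h : ℕ → RatFunc ℚ, (∀ l, l < m → Dv d 0 (h (l * d))) →
      (∀ l, l < m → ∀ j, j < d → Dv d 1 (h (l * d + j) - h (l * d) * f 0 j)) →
      ∃ lam : ℕ → RatFunc ℚ, (∀ i, Dv d 0 (lam i)) ∧
        ∀ k, k < m * d → Dv d 1 (h k - ∑ i ∈ range m, lam i *
          f (4 * ((N₀ + i * d : ℕ) : ℤ) + 1) k) := by
  induction m with
  | zero =>
    intro h _ _
    refine ⟨fun _ => 0, fun _ => dv_zero hd 0, fun k hk => ?_⟩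
    omega
  | succ m ih =>
    intro h h1 h2
    set e : ℤ := 4 * ((N₀ + m * d : ℕ) : ℤ) + 1 with he
    have hde : (d : ℤ) ∣ e := dvd_node hd hodd N₀ hN m
    set μ := h (m * d) * (f e (m * d))⁻¹ with hμ
    have hμ0 : Dv d 0 μ := dv_mul' hd (h1 m (by omega)) (f_inv_dv hd hodd e hde m)
      (by norm_num : (0 : ℤ) = 0 + 0)
    obtain ⟨lam, hl1, hl2⟩ := ih (fun k => h k - μ * f e k)
      (fun l hl => dv_sub hd (h1 l (by omega)) (dv_mul' hd hμ0 (f_dv_zero hd hodd e hde _)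
        (by norm_num : (0 : ℤ) = 0 + 0)))
      (fun l hl j hj => by
        have e1 : (h (l * d + j) - μ * f e (l * d + j)) - (h (l * d) - μ * f e (l * d)) * f 0 j =
            (h (l * d + j) - h (l * d) * f 0 j) -
              μ * (f e (l * d + j) - f e (l * d) * f 0 j) := by ring
        rw [e1]
        exact dv_sub hd (h2 l (by omega) j hj) (dv_mul' hd hμ0
          (block_cong hd hodd e hde l j hj) (by norm_num : (1 : ℤ) = 0 + 1)))
    refine ⟨fun i => if i = m then μ else lam i, ?_, ?_⟩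
    · intro i
      dsimp only
      split_ifs
      · exact hμ0
      · exact hl1 i
    · intro k hk
      rw [sum_range_succ]
      dsimp only
      rw [if_pos rfl, ← he]
      have hsum : ∑ i ∈ range m, (if i = m then μ else lam i) *
          f (4 * ((N₀ + i * d : ℕ) : ℤ) + 1) k =
          ∑ i ∈ range m, lam i * f (4 * ((N₀ + i * d : ℕ) : ℤ) + 1) k := by
        apply sum_congr rfl
        intro i hi
        rw [mem_range] at hi
        rw [if_neg (by omega)]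
      rw [hsum]
      rcases Nat.lt_or_ge k (m * d) with hk' | hk'
      · have := hl2 k hk'
        have e1 : h k - (∑ i ∈ range m, lam i * f (4 * ((N₀ + i * d : ℕ) : ℤ) + 1) k + μ * f e k) =
            h k - μ * f e k - ∑ i ∈ range m, lam i * f (4 * ((N₀ + i * d : ℕ) : ℤ) + 1) k := by
          ring
        rw [e1]; exact this
      · obtain ⟨j, rfl⟩ : ∃ j, k = m * d + j := ⟨k - m * d, by omega⟩
        have hj : j < d := by rw [add_mul] at hk; omega
        have hzero : ∑ i ∈ range m, lam i * f (4 * ((N₀ + i * d : ℕ) : ℤ) + 1) (m * d + j) = 0 := by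
          apply sum_eq_zero
          intro i hi
          rw [mem_range] at hi
          have hlt : N₀ + i * d < m * d + j := by
            have : (i + 1) * d ≤ m * d := Nat.mul_le_mul_right d (by omega)
            rw [add_mul] at this; omega
          rw [f_vanish _ _ hlt, mul_zero]
        rw [hzero, zero_add]
        have hfe : f e (m * d) ≠ 0 := node_ne_zero hd hodd _ _ (by omega)
        have e1 : h (m * d + j) - μ * f e (m * d + j) =
            (h (m * d + j) - h (m * d) * f 0 j) -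
              μ * (f e (m * d + j) - f e (m * d) * f 0 j) := by
          rw [hμ]; field_simp; ring
        rw [e1]
        exact dv_sub hd (h2 m (by omega) j hj) (dv_mul' hd hμ0
          (block_cong hd hodd e hde m j hj) (by norm_num : (1 : ℤ) = 0 + 1))

end

/-- The closed form, in terms of `u`. -/
noncomputable def E (e : ℤ) (N : ℕ) : RatFunc ℚ := EE RatFunc.X (RatFunc.X ^ e) N

lemma E_eq (e : ℤ) (N : ℕ) : E e N = u (4 * N + 1) * (u 1)⁻¹ *
    ((∏ i ∈ range N, u ((2 : ℕ) + 4 * i + e)) * (∏ i ∈ range N, u ((2 : ℕ) + 4 * i + -e)) *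
      ((∏ i ∈ range N, (u ((4 : ℕ) + 4 * i + e))⁻¹) *
        (∏ i ∈ range N, (u ((4 : ℕ) + 4 * i + -e))⁻¹))) := by
  unfold E EE
  rw [← prod_mul_distrib, ← prod_mul_distrib, ← prod_mul_distrib]
  have hX := X_ne
  have g1 : u (4 * (N : ℤ) + 1) = 1 - RatFunc.X ^ (4 * N + 1) := by
    unfold u
    rw [← zpow_natCast]; push_cast; rfl
  have g2 : u 1 = 1 - RatFunc.X := by unfold u; rw [zpow_one]
  rw [g1, g2]
  congr 1
  · apply prod_congr rfl
    intro i _
    unfold eps u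
    have e1 : (RatFunc.X : RatFunc ℚ) ^ (((2 : ℕ) : ℤ) + 4 * (i : ℤ) + e) =
        RatFunc.X ^ 2 * RatFunc.X ^ (4 * i) * RatFunc.X ^ e := by
      rw [zpow_add₀ hX, zpow_add₀ hX]; congr 2
    have e2 : (RatFunc.X : RatFunc ℚ) ^ (((2 : ℕ) : ℤ) + 4 * (i : ℤ) + -e) =
        RatFunc.X ^ 2 * RatFunc.X ^ (4 * i) * (RatFunc.X ^ e)⁻¹ := by
      rw [zpow_add₀ hX, zpow_add₀ hX, zpow_neg]; congr 2
    have e3 : (RatFunc.X : RatFunc ℚ) ^ (((4 : ℕ) : ℤ) + 4 * (i : ℤ) + e) =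
        RatFunc.X ^ 4 * RatFunc.X ^ (4 * i) * RatFunc.X ^ e := by
      rw [zpow_add₀ hX, zpow_add₀ hX]; congr 2
    have e4 : (RatFunc.X : RatFunc ℚ) ^ (((4 : ℕ) : ℤ) + 4 * (i : ℤ) + -e) =
        RatFunc.X ^ 4 * RatFunc.X ^ (4 * i) * (RatFunc.X ^ e)⁻¹ := by
      rw [zpow_add₀ hX, zpow_add₀ hX, zpow_neg]; congr 2
    rw [e1, e2, e3, e4, mul_inv]

lemma jackson' (e : ℤ) (he : e = 0 ∨ e % 2 = 1) (N n : ℕ) (hn : N < n) :
    ∑ k ∈ range n, cc RatFunc.X k * f (4 * N + 1) k * f e k = E e N := by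
  have hX := X_ne
  have h1 := jackson (q := (RatFunc.X : RatFunc ℚ)) (y := RatFunc.X ^ e) hX
    X_pow_ne_one (zpow_ne_zero _ hX)
    (by
      intro m
      have h : u (4 * m + 4 + e) ≠ 0 := u_ne (by omega)
      have e1 : (1 : RatFunc ℚ) - RatFunc.X ^ (4 * m + 4) * RatFunc.X ^ e = u (4 * m + 4 + e) := by
        unfold u
        rw [zpow_add₀ hX]; congr 2
      rw [e1]; exact h)
    (by
      intro m
      have h : u (4 * m + 4 - e) ≠ 0 := u_ne (by omega)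
      have e1 : (RatFunc.X : RatFunc ℚ) ^ e - RatFunc.X ^ (4 * m + 4) =
          RatFunc.X ^ e * u (4 * m + 4 - e) := by
        unfold u
        rw [mul_sub, ← zpow_add₀ hX, mul_one]; congr 1
        rw [← zpow_natCast]; congr 1; push_cast; ring
      rw [e1]; exact mul_ne_zero (zpow_ne_zero _ hX) h) N
  have h2 : (RatFunc.X : RatFunc ℚ) * RatFunc.X ^ (4 * N) = RatFunc.X ^ (4 * (N : ℤ) + 1) := by
    rw [zpow_add₀ hX, zpow_one, mul_comm]; congr 1
  rw [h2] at h1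
  unfold E
  rw [← h1]
  symm
  apply sum_subset
  · intro k hk
    rw [mem_range] at hk ⊢; omega
  · intro k _ hk
    rw [mem_range] at hk
    have : f (4 * (N : ℤ) + 1) k = 0 := f_vanish N k (by omega)
    change cc RatFunc.X k * f (4 * (N : ℤ) + 1) k * _ = 0
    rw [this]; ring

section

variable {d : ℕ} (hd : 1 < d) (hodd : d % 2 = 1)

include hd hodd

lemma E_dv (e : ℤ) (he : (d : ℤ) ∣ e) (N : ℕ) (hN : (d : ℤ) ∣ 4 * (N : ℤ) + 1) (t : ℕ)
    (ht : t < d) (h2 : ∀ N : ℕ, (d ∣ 2 + 4 * N ↔ d ∣ N + 1 + t)) :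
    Dv d (1 + 2 * (((N + t) / d : ℕ) : ℤ) - 2 * ((N / d : ℕ) : ℤ)) (E e N) := by
  rw [E_eq]
  have hneg : (d : ℤ) ∣ -e := (Int.dvd_neg).mpr he
  have a1 := prod_u_dv hd 2 e he t ht h2 N
  have a2 := prod_u_dv hd 2 (-e) hneg t ht h2 N
  have a3 := prod_u_inv_dv hd 4 e he 0 (by omega) (shift_four hodd) N
  have a4 := prod_u_inv_dv hd 4 (-e) hneg 0 (by omega) (shift_four hodd) N
  have a5 := dv_mul hd (dv_mul hd a1 a2) (dv_mul hd a3 a4)
  have b1 : Dv d 1 (u (4 * N + 1)) := dv_u_of_dvd hd hN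
  have b2 : Dv d 0 ((u 1)⁻¹) := dv_u_inv hd (by
    intro h
    have h' : d ∣ 1 := by exact_mod_cast h
    have := Nat.le_of_dvd (by omega) h'; omega)
  refine dv_mono hd (dv_mul hd (dv_mul hd b1 b2) a5) ?_
  have c4 : (N + 0) / d = N / d := by rw [add_zero]
  rw [c4]
  omega

lemma E_dv_one (e : ℤ) (he : (d : ℤ) ∣ e) (N : ℕ) (hN : (d : ℤ) ∣ 4 * (N : ℤ) + 1) :
    Dv d 1 (E e N) := by
  obtain ⟨t, ht, h2⟩ := exists_shift hd hodd 2
  refine dv_mono hd (E_dv hd hodd e he N hN t ht h2) ?_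
  have : N / d ≤ (N + t) / d := Nat.div_le_div_right (by omega)
  omega

lemma exists_node : ∃ N₀, N₀ < d ∧ d ∣ 4 * N₀ + 1 := by
  rcases (by omega : d % 4 = 1 ∨ d % 4 = 3) with h | h
  · refine ⟨(d - 1) / 4, by omega, ?_⟩
    have : 4 * ((d - 1) / 4) + 1 = d := by omega
    rw [this]
  · refine ⟨(3 * d - 1) / 4, by omega, ?_⟩
    have : 4 * ((3 * d - 1) / 4) + 1 = 3 * d := by omega
    rw [this]; exact dvd_mul_left _ _

/-- **First divisibility**: the sum over `m` full blocks is divisible by `Φ_d`. -/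
theorem sum_dv_one (m : ℕ) :
    Dv d 1 (∑ k ∈ range (m * d), cc RatFunc.X k * (f 0 k) ^ 2) := by
  obtain ⟨N₀, hN₀, hN⟩ := exists_node hd hodd
  obtain ⟨lam, hl1, hl2⟩ := span hd hodd N₀ hN₀ hN m (f 0)
    (fun l _ => f_dv_zero hd hodd 0 (dvd_zero _) _)
    (fun l _ j hj => block_cong hd hodd 0 (dvd_zero _) l j hj)
  set g : ℕ → ℕ → RatFunc ℚ := fun i k => f (4 * ((N₀ + i * d : ℕ) : ℤ) + 1) k with hg
  set L : ℕ → RatFunc ℚ := fun k => ∑ i ∈ range m, lam i * g i k with hL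
  have hlt : ∀ i, i < m → N₀ + i * d < m * d := by
    intro i hi
    have : (i + 1) * d ≤ m * d := Nat.mul_le_mul_right d (by omega)
    rw [add_mul] at this; omega
  have key : ∑ k ∈ range (m * d), cc RatFunc.X k * (f 0 k) ^ 2 =
      ∑ k ∈ range (m * d), cc RatFunc.X k * (f 0 k - L k) ^ 2 +
      2 * (∑ i ∈ range m, lam i * E 0 (N₀ + i * d)) -
      ∑ i ∈ range m, ∑ j ∈ range m, lam i * lam j *
        E (4 * ((N₀ + j * d : ℕ) : ℤ) + 1) (N₀ + i * d) := by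
    have e1 : ∀ i, i < m → E 0 (N₀ + i * d) =
        ∑ k ∈ range (m * d), cc RatFunc.X k * g i k * f 0 k := by
      intro i hi
      rw [← jackson' 0 (Or.inl rfl) (N₀ + i * d) (m * d) (hlt i hi)]
    have e2 : ∀ i j, i < m → E (4 * ((N₀ + j * d : ℕ) : ℤ) + 1) (N₀ + i * d) =
        ∑ k ∈ range (m * d), cc RatFunc.X k * g i k * g j k := by
      intro i j hi
      rw [← jackson' (4 * ((N₀ + j * d : ℕ) : ℤ) + 1) (Or.inr (by omega)) (N₀ + i * d) (m * d)
        (hlt i hi)]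
    have e3 : ∑ i ∈ range m, lam i * E 0 (N₀ + i * d) =
        ∑ k ∈ range (m * d), cc RatFunc.X k * f 0 k * L k := by
      rw [sum_congr rfl (fun i hi => by rw [e1 i (mem_range.mp hi)])]
      simp only [hL, mul_sum]
      rw [sum_comm]
      apply sum_congr rfl; intro k _
      apply sum_congr rfl; intro i _
      ring
    have e4 : ∑ i ∈ range m, ∑ j ∈ range m, lam i * lam j *
        E (4 * ((N₀ + j * d : ℕ) : ℤ) + 1) (N₀ + i * d) =
        ∑ k ∈ range (m * d), cc RatFunc.X k * (L k) ^ 2 := by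
      have e5 : ∀ k, cc RatFunc.X k * (L k) ^ 2 =
          ∑ i ∈ range m, ∑ j ∈ range m, lam i * lam j * (cc RatFunc.X k * g i k * g j k) := by
        intro k
        simp only [hL, sq]
        rw [sum_mul_sum, mul_sum]
        apply sum_congr rfl; intro i _
        rw [mul_sum]
        apply sum_congr rfl; intro j _
        ring
      rw [sum_congr rfl (fun k _ => e5 k)]
      symm
      rw [sum_comm]
      apply sum_congr rfl; intro i hi
      rw [sum_comm]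
      apply sum_congr rfl; intro j _
      rw [e2 i j (mem_range.mp hi), mul_sum]
    rw [e3, e4, mul_sum, ← sum_add_distrib, ← sum_sub_distrib]
    apply sum_congr rfl; intro k _
    ring
  rw [key]
  have hnode : ∀ i, (d : ℤ) ∣ 4 * ((N₀ + i * d : ℕ) : ℤ) + 1 := dvd_node hd hodd N₀ hN
  refine dv_sub hd (dv_add hd ?_ ?_) ?_
  · apply dv_sum hd
    intro k hk
    have h1 := hl2 k (mem_range.mp hk)
    have h2 := dv_pow hd h1 2
    exact dv_mul' hd (cc_dv hd hodd k) h2 (by norm_num)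
  · have h2 : (2 : RatFunc ℚ) = algebraMap ℚ[X] (RatFunc ℚ) 2 := (map_ofNat _ 2).symm
    rw [h2]
    refine dv_mul' hd (dv_poly hd _) ?_ (by norm_num : (1 : ℤ) = 0 + 1)
    apply dv_sum hd
    intro i _
    exact dv_mul' hd (hl1 i) (E_dv_one hd hodd 0 (dvd_zero _) _ (hnode i))
      (by norm_num : (1 : ℤ) = 0 + 1)
  · apply dv_sum hd
    intro i _
    apply dv_sum hd
    intro j _
    exact dv_mul' hd (dv_mul' hd (hl1 i) (hl1 j) (by norm_num : (0 : ℤ) = 0 + 0))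
      (E_dv_one hd hodd _ (hnode j) _ (hnode i)) (by norm_num : (1 : ℤ) = 0 + 1)

end

end Pool.Agent.Lib.MP_659547_nt
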