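import Pool.Agent.Lib.MP_659547_nt.Jackson

set_option autoImplicit false

namespace Pool.Agent.Lib.MP_659547_nt

open Finset

variable {F : Type*} [Field F]

lemma pow_ne_pow {q : F} (hq : q ≠ 0) (hq1 : ∀ m : ℕ, 0 < m → q ^ m ≠ 1) {a b : ℕ}
    (h : a ≠ b) : q ^ a ≠ q ^ b := by
  wlog hab : a < b generalizing a b
  · exact (this h.symm (by omega)).symm
  intro he
  obtain ⟨c, rfl⟩ : ∃ c, b = a + c := ⟨b - a, by omega⟩
  rw [pow_add] at he
  have h1 : q ^ c = 1 := by
    have := mul_left_cancel₀ (pow_ne_zero a hq) (show q ^ a * 1 = q ^ a * q ^ c by simpa using he)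
    exact this.symm
  exact hq1 c (by omega) h1

lemma one_sub_pow_ne {q : F} (hq1 : ∀ m : ℕ, 0 < m → q ^ m ≠ 1) {m : ℕ} (hm : 0 < m) :
    1 - q ^ m ≠ 0 := by
  intro h; exact hq1 m hm (by linear_combination -h)

lemma ff_succ (q x : F) (k : ℕ) : ff q x (k+1) = ff q x k * phi q x (q ^ (4 * k)) := by
  unfold ff; rw [prod_range_succ]

lemma ff_ratio {q : F} (hq : q ≠ 0) (hq1 : ∀ m : ℕ, 0 < m → q ^ m ≠ 1) (N k : ℕ) (hk : k ≤ N) :
    ff q (q * (q ^ 4 * q ^ (4 * N))) k = ff q (q * q ^ (4 * N)) k *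
      sg q (q ^ (4 * N)) (q ^ (4 * k)) := by
  have hZ : q ^ (4 * N) ≠ 0 := pow_ne_zero _ hq
  induction k with
  | zero =>
    have h1 : 1 - q ^ 2 * q ^ (4 * N) ≠ 0 := by
      rw [← pow_add]; exact one_sub_pow_ne hq1 (by omega)
    have h2 : 1 - q ^ 4 * q ^ (4 * N) ≠ 0 := by
      rw [← pow_add]; exact one_sub_pow_ne hq1 (by omega)
    have h3 : 1 - q * q ^ (4 * N) ≠ 0 := by
      rw [← pow_succ']; exact one_sub_pow_ne hq1 (by omega)
    have h4 : 1 - q ^ 5 * q ^ (4 * N) ≠ 0 := by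
      rw [← pow_add]; exact one_sub_pow_ne hq1 (by omega)
    simp only [ff, range_zero, prod_empty, one_mul, sg, mul_zero, pow_zero, mul_one]
    rw [mul_inv_cancel₀ (by positivity)]
  | succ k ih =>
    rw [ff_succ, ff_succ, ih (by omega)]
    have hpow : q ^ (4 * (k + 1)) = q ^ 4 * q ^ (4 * k) := by rw [← pow_add]; congr 1; ring
    rw [hpow]
    have key := sg_phi q (q ^ (4 * N)) (q ^ (4 * k)) hq hZ
      (by rw [← pow_add]; exact sub_ne_zero.mpr (pow_ne_pow hq hq1 (by omega)))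
      (by rw [← pow_add, ← pow_add]; exact sub_ne_zero.mpr (pow_ne_pow hq hq1 (by omega)))
      (by rw [← pow_add, ← pow_add]; exact one_sub_pow_ne hq1 (by omega))
      (by rw [← pow_add, ← pow_add]; exact one_sub_pow_ne hq1 (by omega))
      (by rw [← pow_add, ← pow_add]; exact sub_ne_zero.mpr (pow_ne_pow hq hq1 (by omega)))
      (by rw [← pow_add]; exact sub_ne_zero.mpr (pow_ne_pow hq hq1 (by omega)))
    calc ff q (q * q ^ (4 * N)) k * sg q (q ^ (4 * N)) (q ^ (4 * k)) *
          phi q (q * (q ^ 4 * q ^ (4 * N))) (q ^ (4 * k))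
        = ff q (q * q ^ (4 * N)) k * (sg q (q ^ (4 * N)) (q ^ (4 * k)) *
          phi q (q * (q ^ 4 * q ^ (4 * N))) (q ^ (4 * k))) := by ring
      _ = _ := by rw [key]; ring

lemma cc_succ {q : F} (hq1 : ∀ m : ℕ, 0 < m → q ^ m ≠ 1) (k : ℕ) :
    cc q (k+1) = cc q k * (q ^ 4 * ((1 - q ^ 9 * (q ^ (4 * k)) ^ 2) *
      (1 - q * (q ^ (4 * k)) ^ 2)⁻¹) * gam q (q ^ (4 * k))) := by
  unfold cc
  rw [prod_range_succ]
  have e1 : q ^ 9 * (q ^ (4 * k)) ^ 2 = q ^ (8 * (k + 1) + 1) := by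
    rw [← pow_mul, ← pow_add]; congr 1; ring
  have e2 : q * (q ^ (4 * k)) ^ 2 = q ^ (8 * k + 1) := by
    rw [← pow_mul, ← pow_succ']; congr 1; ring
  have e3 : q ^ (4 * (k + 1)) = q ^ (4 * k) * q ^ 4 := by rw [← pow_add]; congr 1
  rw [e1, e2, e3]
  have h1 : 1 - q ^ (8 * k + 1) ≠ 0 := one_sub_pow_ne hq1 (by omega)
  field_simp

theorem jackson {q y : F} (hq : q ≠ 0) (hq1 : ∀ m : ℕ, 0 < m → q ^ m ≠ 1) (hy : y ≠ 0)
    (hy1 : ∀ m : ℕ, 1 - q ^ (4 * m + 4) * y ≠ 0) (hy2 : ∀ m : ℕ, y - q ^ (4 * m + 4) ≠ 0)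
    (N : ℕ) :
    ∑ k ∈ range (N + 1), cc q k * ff q (q * q ^ (4 * N)) k * ff q y k = EE q y N := by
  induction N with
  | zero =>
    have h1 : 1 - q ≠ 0 := by
      have := one_sub_pow_ne hq1 (m := 1) (by omega)
      rwa [pow_one] at this
    simp [cc, ff, EE, h1]
  | succ N ih =>
    set Z := q ^ (4 * N) with hZdef
    have hZ : Z ≠ 0 := pow_ne_zero _ hq
    have hx' : q ^ (4 * (N + 1)) = q ^ 4 * Z := by rw [hZdef, ← pow_add]; congr 1; ring
    rw [hx']
    set t : ℕ → F := fun k => cc q k * ff q (q * Z) k * ff q y k with ht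
    set t' : ℕ → F := fun k => cc q k * ff q (q * (q ^ 4 * Z)) k * ff q y k with ht'
    have hpow : ∀ k, q ^ (4 * (k + 1)) = q ^ 4 * q ^ (4 * k) := by
      intro k; rw [← pow_add]; congr 1; ring
    -- nonvanishing facts
    have n1 : 1 - q * Z ≠ 0 := by
      rw [hZdef, ← pow_succ']; exact one_sub_pow_ne hq1 (by omega)
    have n2 : 1 - q ^ 2 * Z ≠ 0 := by
      rw [hZdef, ← pow_add]; exact one_sub_pow_ne hq1 (by omega)
    have n3 : 1 - q ^ 4 * y * Z ≠ 0 := by
      have := hy1 N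
      intro h; apply this
      rw [pow_add]; rw [hZdef] at h; linear_combination h
    have n4 : y - q ^ 4 * Z ≠ 0 := by
      have := hy2 N
      intro h; apply this
      rw [pow_add]; rw [hZdef] at h; linear_combination h
    have nK : ∀ k, q ^ (4 * k) ≠ 0 := fun k => pow_ne_zero _ hq
    have n6 : ∀ k, 1 - q * (q ^ (4 * k)) ^ 2 ≠ 0 := by
      intro k
      rw [← pow_mul, ← pow_succ']; exact one_sub_pow_ne hq1 (by omega)
    have n7 : ∀ k, k ≤ N → q ^ (4 * k) - q ^ 4 * Z ≠ 0 := by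
      intro k hk
      rw [hZdef, ← pow_add]; exact sub_ne_zero.mpr (pow_ne_pow hq hq1 (by omega))
    have n8 : ∀ k, 1 - q ^ 5 * Z * q ^ (4 * k) ≠ 0 := by
      intro k
      rw [hZdef, ← pow_add, ← pow_add]; exact one_sub_pow_ne hq1 (by omega)
    have hsucc : ∀ k, t (k+1) = t k * tau q y Z (q ^ (4 * k)) := by
      intro k
      simp only [ht, tau]
      rw [cc_succ hq1, ff_succ, ff_succ]; ring
    have hsucc' : ∀ k, t' (k+1) = t' k * tau q y (q ^ 4 * Z) (q ^ (4 * k)) := by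
      intro k
      simp only [ht', tau]
      rw [cc_succ hq1, ff_succ, ff_succ]; ring
    have hratio : ∀ k, k ≤ N → t' k = t k * sg q Z (q ^ (4 * k)) := by
      intro k hk
      simp only [ht, ht']
      rw [hZdef, ff_ratio hq hq1 N k hk]; ring
    have hstar : ∀ k, k ≤ N → t' k - ep q y Z * t k =
        t k * kp q y Z (q ^ (4 * k)) - t k * rr q y Z (q ^ (4 * k)) := by
      intro k hk
      have h1 := star q y Z (q ^ (4 * k)) n1 n2 n3 n4 (nK k) (n6 k) (n7 k hk) (n8 k)
      rw [hratio k hk]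
      linear_combination (t k) * h1
    have hpart : ∀ k, k ≤ N → ∑ j ∈ range (k+1), (t' j - ep q y Z * t j) =
        t k * kp q y Z (q ^ (4 * k)) := by
      intro k
      induction k with
      | zero =>
        intro _
        rw [sum_range_one, hstar 0 (by omega)]
        have : rr q y Z (q ^ (4 * 0)) = 0 := by simp [rr]
        rw [this]; ring
      | succ k ihk =>
        intro hk
        rw [sum_range_succ, ihk (by omega), hstar (k+1) hk]
        have h1 := tau_rr q y Z (q ^ (4 * k)) hq hZ (nK k) hy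
          (by rw [← pow_mul, ← pow_add]; exact one_sub_pow_ne hq1 (by omega))
          (by rw [← pow_add]; exact one_sub_pow_ne hq1 (by omega))
          (by rw [← pow_add]; exact one_sub_pow_ne hq1 (by omega))
          (by rw [hZdef, ← pow_add]; exact sub_ne_zero.mpr (pow_ne_pow hq hq1 (by omega)))
          (by
            have := hy1 k
            rwa [show q ^ 4 * q ^ (4 * k) = q ^ (4 * k + 4) by rw [pow_add]; ring])
          (by
            have := hy2 k
            rwa [show q ^ 4 * q ^ (4 * k) = q ^ (4 * k + 4) by rw [pow_add]; ring])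
          (by rw [hZdef]; exact sub_ne_zero.mpr (pow_ne_pow hq hq1 (by omega)))
        rw [← hpow] at h1
        rw [hsucc k]
        linear_combination (-(t k)) * h1
    have hlast : t' (N+1) = - (t N * kp q y Z Z) := by
      rw [hsucc' N, hratio N le_rfl, ← hZdef]
      have h1 := final_step q y Z hq hZ hy
        (by rw [hZdef, ← pow_add]; exact one_sub_pow_ne hq1 (by omega))
        (by rw [hZdef, ← pow_add]; exact one_sub_pow_ne hq1 (by omega))
        (by rw [hZdef, ← pow_mul, ← pow_add]; exact one_sub_pow_ne hq1 (by omega))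
        (one_sub_pow_ne hq1 (by omega))
        (by
          have := one_sub_pow_ne hq1 (m := 1) (by omega)
          rwa [pow_one] at this)
      linear_combination (t N) * h1
    have hN := hpart N le_rfl
    rw [sum_sub_distrib, ← mul_sum] at hN
    have ih' : ∑ j ∈ range (N + 1), t j = EE q y N := ih
    rw [ih', ← hZdef] at hN
    change ∑ x ∈ range (N + 1 + 1), t' x = EE q y (N+1)
    rw [sum_range_succ, hlast]
    have hE : EE q y (N+1) = ep q y Z * EE q y N := by
      unfold EE ep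
      rw [prod_range_succ, ← hZdef]
      have h1 : (1 - q ^ (4 * (N + 1) + 1)) = 1 - q ^ 5 * Z := by
        rw [hZdef, ← pow_add]; congr 2; ring
      have h2 : (1 - q ^ (4 * N + 1)) = 1 - q * Z := by
        rw [hZdef, ← pow_succ']
      have h3 : eps q y Z = (1 - q ^ 2 * y * Z) * (y - q ^ 2 * Z) *
          ((1 - q ^ 4 * y * Z) * (y - q ^ 4 * Z))⁻¹ := by
        unfold eps
        have g1 : 1 - q ^ 2 * Z * y⁻¹ = (y - q ^ 2 * Z) * y⁻¹ := by field_simp
        have g2 : 1 - q ^ 4 * Z * y⁻¹ = (y - q ^ 4 * Z) * y⁻¹ := by field_simp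
        have g3 : 1 - q ^ 2 * Z * y = 1 - q ^ 2 * y * Z := by ring
        have g4 : 1 - q ^ 4 * Z * y = 1 - q ^ 4 * y * Z := by ring
        rw [g1, g2, g3, g4, mul_inv, mul_inv, mul_inv, inv_inv]
        field_simp
      rw [h1, h2, h3]
      field_simp
    rw [hE]
    linear_combination hN

end Pool.Agent.Lib.MP_659547_nt
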