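import Pool.Agent.Lib.MP_659547_nt.Main

/-!
# Divisibility by `Φ_n^3` for `n ≡ 3 (mod 4)`
-/

set_option autoImplicit false

namespace Pool.Agent.Lib.MP_659547_nt

open Finset Polynomial

lemma R_sub_aux {F : Type*} [Field F] (a b x : F) (hx : x ≠ 0) (h1 : 1 - b ≠ 0)
    (h2 : 1 - b * x ≠ 0) (h3 : 1 - b * x⁻¹ ≠ 0) :
    (1 - a) * (1 - a) * ((1 - b)⁻¹ * (1 - b)⁻¹) -
      (1 - a * x) * (1 - a * x⁻¹) * ((1 - b * x)⁻¹ * (1 - b * x⁻¹)⁻¹) =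
    ((1 - x) ^ 2 * x⁻¹) * ((a - b) * (1 - a * b)) *
      ((1 - b)⁻¹ * (1 - b)⁻¹ * ((1 - b * x)⁻¹ * (1 - b * x⁻¹)⁻¹)) := by
  have h3' : x - b ≠ 0 := by
    intro h; apply h3
    have : b = x := by linear_combination -h
    rw [this]; field_simp; ring
  have e1 : 1 - b * x⁻¹ = (x - b) * x⁻¹ := by field_simp
  have e2 : 1 - a * x⁻¹ = (x - a) * x⁻¹ := by field_simp
  rw [e1, e2, mul_inv, inv_inv]
  field_simp
  ring

section

variable {d : ℕ} (hd : 1 < d) (hodd : d % 2 = 1)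

include hd hodd

lemma R_sub_dv (e : ℤ) (he : (d : ℤ) ∣ e) (i : ℕ) (hi : i + 1 < d) :
    Dv d 2 (R 0 i - R e i) := by
  have hX := X_ne
  have hneg : (d : ℤ) ∣ -e := (Int.dvd_neg).mpr he
  have n1 : ¬ (d : ℤ) ∣ (4 + 4 * (i : ℤ) + e) := not_dvd_four hd hodd e he i hi
  have n2 : ¬ (d : ℤ) ∣ (4 + 4 * (i : ℤ) - e) := not_dvd_four hd hodd (-e) hneg i hi
  have n3 : ¬ (d : ℤ) ∣ (4 + 4 * (i : ℤ)) := by
    simpa using not_dvd_four hd hodd 0 (dvd_zero _) i hi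
  have ne : ∀ m : ℤ, ¬ (d : ℤ) ∣ m → u m ≠ 0 := fun m hm => u_ne (fun h => hm (h ▸ dvd_zero _))
  have c1 : u (1 + 4 * (i : ℤ) + e) = 1 - RatFunc.X ^ (1 + 4 * (i : ℤ)) * RatFunc.X ^ e := by
    unfold u; rw [zpow_add₀ hX]
  have c2 : u (1 + 4 * (i : ℤ) - e) = 1 - RatFunc.X ^ (1 + 4 * (i : ℤ)) * (RatFunc.X ^ e)⁻¹ := by
    unfold u
    rw [show (1 + 4 * (i : ℤ) - e) = (1 + 4 * (i : ℤ)) + -e by ring,
      zpow_add₀ hX (1 + 4 * (i : ℤ)) (-e), zpow_neg]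
  have c3 : u (4 + 4 * (i : ℤ) + e) = 1 - RatFunc.X ^ (4 + 4 * (i : ℤ)) * RatFunc.X ^ e := by
    unfold u; rw [zpow_add₀ hX]
  have c4 : u (4 + 4 * (i : ℤ) - e) = 1 - RatFunc.X ^ (4 + 4 * (i : ℤ)) * (RatFunc.X ^ e)⁻¹ := by
    unfold u
    rw [show (4 + 4 * (i : ℤ) - e) = (4 + 4 * (i : ℤ)) + -e by ring,
      zpow_add₀ hX (4 + 4 * (i : ℤ)) (-e), zpow_neg]
  have key : R 0 i - R e i = (u e ^ 2 * RatFunc.X ^ (-e)) *
      ((RatFunc.X ^ (1 + 4 * (i : ℤ)) - RatFunc.X ^ (4 + 4 * (i : ℤ))) *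
        (1 - RatFunc.X ^ (1 + 4 * (i : ℤ)) * RatFunc.X ^ (4 + 4 * (i : ℤ)))) *
      ((u (4 + 4 * (i : ℤ)))⁻¹ * (u (4 + 4 * (i : ℤ)))⁻¹ *
        ((u (4 + 4 * (i : ℤ) + e))⁻¹ * (u (4 + 4 * (i : ℤ) - e))⁻¹)) := by
    have haux := R_sub_aux (RatFunc.X ^ (1 + 4 * (i : ℤ)) : RatFunc ℚ)
      (RatFunc.X ^ (4 + 4 * (i : ℤ))) (RatFunc.X ^ e) (zpow_ne_zero _ hX) (ne _ n3)
      (by rw [← c3]; exact ne _ n1) (by rw [← c4]; exact ne _ n2)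
    unfold R
    rw [add_zero, add_zero, sub_zero, sub_zero, c1, c2, c3, c4, zpow_neg]
    unfold u
    exact haux
  rw [key]
  have hp1 := dv_zpow hd (1 + 4 * (i : ℤ))
  have hp2 := dv_zpow hd (4 + 4 * (i : ℤ))
  have b1 : Dv d 2 (u e ^ 2 * RatFunc.X ^ (-e)) :=
    dv_mul' hd (dv_pow hd (dv_u_of_dvd hd he) 2) (dv_zpow hd _) (by norm_num)
  have b2 : Dv d 0 ((RatFunc.X ^ (1 + 4 * (i : ℤ)) - RatFunc.X ^ (4 + 4 * (i : ℤ))) *
        (1 - RatFunc.X ^ (1 + 4 * (i : ℤ)) * RatFunc.X ^ (4 + 4 * (i : ℤ)))) :=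
    dv_mul' hd (dv_sub hd hp1 hp2) (dv_sub hd (dv_one hd)
      (dv_mul' hd hp1 hp2 (by norm_num : (0 : ℤ) = 0 + 0))) (by norm_num : (0 : ℤ) = 0 + 0)
  have b3 := dv_mul hd (dv_mul hd (dv_u_inv hd n3) (dv_u_inv hd n3))
    (dv_mul hd (dv_u_inv hd n1) (dv_u_inv hd n2))
  exact dv_mul' hd (dv_mul hd b1 b2) b3 (by norm_num)

lemma f_sub_dv (e : ℤ) (he : (d : ℤ) ∣ e) (k : ℕ) (hk : k < d) : Dv d 2 (f 0 k - f e k) := by
  induction k with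
  | zero => rw [f_zero, f_zero, sub_self]; exact dv_zero hd 2
  | succ k ih =>
    have e1 : ∀ e', f e' (k + 1) = f e' k * R e' k := by
      intro e'; rw [f_eq, f_eq, prod_range_succ]
    rw [e1 0, e1 e]
    have e2 : f 0 k * R 0 k - f e k * R e k = f 0 k * (R 0 k - R e k) +
        (f 0 k - f e k) * R e k := by ring
    rw [e2]
    have hR : Dv d 0 (R e k) := by
      have := R_dv hd hodd e he 0 k hk
      simpa using this
    exact dv_add hd (dv_mul' hd (f_dv_zero hd hodd 0 (dvd_zero _) k)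
      (R_sub_dv hd hodd e he k hk) (by norm_num)) (dv_mul' hd (ih (by omega)) hR (by norm_num))

/-- **Second divisibility**: for `d ≡ 3 (mod 4)` the first block is divisible by `Φ_d^3`. -/
theorem sum_dv_three (h3 : d % 4 = 3) :
    Dv d 3 (∑ k ∈ range d, cc RatFunc.X k * (f 0 k) ^ 2) := by
  set N : ℕ := (3 * d - 1) / 4 with hN
  have hN1 : 4 * N + 1 = 3 * d := by omega
  set e : ℤ := 4 * (N : ℤ) + 1 with he
  have hde : (d : ℤ) ∣ e := ⟨3, by rw [he]; omega⟩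
  have hNd : N < d := by omega
  obtain ⟨t, ht, h2⟩ := exists_shift hd hodd 2
  have ht2 : d ≤ N + t := by
    have h4 : d ∣ 2 + 4 * ((d - 1) / 2) := ⟨2, by omega⟩
    have h5 := (h2 _).mp h4
    have h6 := Nat.le_of_dvd (by omega) h5
    omega
  have hEd : ∀ e' : ℤ, (d : ℤ) ∣ e' → Dv d 3 (E e' N) := by
    intro e' he'
    refine dv_mono hd (E_dv hd hodd e' he' N hde t ht h2) ?_
    have h7 : 1 ≤ (N + t) / d := (Nat.one_le_div_iff (by omega)).mpr ht2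
    have h8 : N / d = 0 := Nat.div_eq_of_lt hNd
    rw [h8]; omega
  have key : ∑ k ∈ range d, cc RatFunc.X k * (f 0 k) ^ 2 =
      ∑ k ∈ range d, cc RatFunc.X k * (f 0 k - f e k) ^ 2 + (E 0 N + E 0 N) - E e N := by
    rw [← jackson' 0 (Or.inl rfl) N d hNd, ← jackson' e (Or.inr (by omega)) N d hNd, ← he,
      ← sum_add_distrib, ← sum_add_distrib, ← sum_sub_distrib]
    apply sum_congr rfl; intro k _
    ring
  rw [key]
  refine dv_sub hd (dv_add hd ?_ (dv_add hd (hEd 0 (dvd_zero _)) (hEd 0 (dvd_zero _)))) (hEd e hde)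
  apply dv_sum hd
  intro k hk
  have h9 := dv_pow hd (f_sub_dv hd hodd e hde k (mem_range.mp hk)) 2
  exact dv_mul' hd (cc_dv hd hodd k) h9 (by norm_num)

end

end Pool.Agent.Lib.MP_659547_nt
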