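import Pool.Agent.Lib.MP_659547_nt.Sum

/-!
# Divisibility of rational functions by powers of a cyclotomic polynomial
-/

set_option autoImplicit false

namespace Pool.Agent.Lib.MP_659547_nt

open Finset Polynomial

/-- `R` is divisible by the `e`-th power of `Φ_d` in the localisation of `ℚ[X]` at `Φ_d`. -/
def Dv (d : ℕ) (e : ℤ) (R : RatFunc ℚ) : Prop :=
  ∃ A B : ℚ[X], ¬ cyclotomic d ℚ ∣ B ∧
    R * algebraMap ℚ[X] (RatFunc ℚ) B =
      (algebraMap ℚ[X] (RatFunc ℚ) (cyclotomic d ℚ)) ^ e * algebraMap ℚ[X] (RatFunc ℚ) A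

section

variable {d : ℕ} (hd : 1 < d)

include hd

lemma cyc_prime : Prime (cyclotomic d ℚ) := (cyclotomic.irreducible_rat (by omega)).prime

omit hd in
lemma cyc_ne : (algebraMap ℚ[X] (RatFunc ℚ) (cyclotomic d ℚ)) ≠ 0 := by
  exact RatFunc.algebraMap_ne_zero (cyclotomic_ne_zero d ℚ)

lemma not_dvd_one : ¬ cyclotomic d ℚ ∣ 1 := (cyc_prime hd).not_dvd_one

lemma dv_zero (e : ℤ) : Dv d e 0 := ⟨0, 1, not_dvd_one hd, by simp⟩

lemma dv_mul {e₁ e₂ : ℤ} {R₁ R₂ : RatFunc ℚ} (h₁ : Dv d e₁ R₁) (h₂ : Dv d e₂ R₂) :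
    Dv d (e₁ + e₂) (R₁ * R₂) := by
  obtain ⟨A₁, B₁, hB₁, h₁⟩ := h₁
  obtain ⟨A₂, B₂, hB₂, h₂⟩ := h₂
  refine ⟨A₁ * A₂, B₁ * B₂, ?_, ?_⟩
  · intro h
    rcases (cyc_prime hd).dvd_or_dvd h with h | h
    · exact hB₁ h
    · exact hB₂ h
  · rw [map_mul, map_mul, zpow_add₀ cyc_ne]
    linear_combination (R₂ * algebraMap ℚ[X] (RatFunc ℚ) B₂) * h₁ +
      (algebraMap ℚ[X] (RatFunc ℚ) (cyclotomic d ℚ)) ^ e₁ * algebraMap ℚ[X] (RatFunc ℚ) A₁ * h₂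

lemma dv_mul' {e e₁ e₂ : ℤ} {R₁ R₂ : RatFunc ℚ} (h₁ : Dv d e₁ R₁) (h₂ : Dv d e₂ R₂)
    (he : e = e₁ + e₂) : Dv d e (R₁ * R₂) := by
  rw [he]; exact dv_mul hd h₁ h₂

lemma dv_add {e : ℤ} {R₁ R₂ : RatFunc ℚ} (h₁ : Dv d e R₁) (h₂ : Dv d e R₂) :
    Dv d e (R₁ + R₂) := by
  obtain ⟨A₁, B₁, hB₁, h₁⟩ := h₁
  obtain ⟨A₂, B₂, hB₂, h₂⟩ := h₂
  refine ⟨A₁ * B₂ + A₂ * B₁, B₁ * B₂, ?_, ?_⟩
  · intro h
    rcases (cyc_prime hd).dvd_or_dvd h with h | h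
    · exact hB₁ h
    · exact hB₂ h
  · rw [map_mul, map_add, map_mul, map_mul]
    linear_combination (algebraMap ℚ[X] (RatFunc ℚ) B₂) * h₁ +
      (algebraMap ℚ[X] (RatFunc ℚ) B₁) * h₂

omit hd in
lemma dv_neg {e : ℤ} {R : RatFunc ℚ} (h : Dv d e R) : Dv d e (-R) := by
  obtain ⟨A, B, hB, h⟩ := h
  refine ⟨-A, B, hB, ?_⟩
  rw [map_neg]; linear_combination -h

lemma dv_sub {e : ℤ} {R₁ R₂ : RatFunc ℚ} (h₁ : Dv d e R₁) (h₂ : Dv d e R₂) :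
    Dv d e (R₁ - R₂) := by
  rw [sub_eq_add_neg]; exact dv_add hd h₁ (dv_neg h₂)

lemma dv_mono {e e' : ℤ} {R : RatFunc ℚ} (h : Dv d e R) (hee : e' ≤ e) : Dv d e' R := by
  obtain ⟨A, B, hB, h⟩ := h
  obtain ⟨c, hc⟩ : ∃ c : ℕ, e = e' + c := ⟨(e - e').toNat, by omega⟩
  refine ⟨(cyclotomic d ℚ) ^ c * A, B, hB, ?_⟩
  rw [h, hc, zpow_add₀ cyc_ne, map_mul, map_pow, zpow_natCast]; ring

lemma dv_sum {ι : Type*} (s : Finset ι) {e : ℤ} {f : ι → RatFunc ℚ}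
    (h : ∀ i ∈ s, Dv d e (f i)) : Dv d e (∑ i ∈ s, f i) := by
  classical
  induction s using Finset.induction with
  | empty => simpa using dv_zero hd e
  | insert a s ha ih =>
    rw [sum_insert ha]
    exact dv_add hd (h a (mem_insert_self a s)) (ih fun i hi => h i (mem_insert_of_mem hi))

lemma dv_poly (A : ℚ[X]) : Dv d 0 (algebraMap ℚ[X] (RatFunc ℚ) A) :=
  ⟨A, 1, not_dvd_one hd, by simp⟩

lemma dv_one : Dv d 0 1 := by
  have := dv_poly hd 1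
  simpa using this

lemma dv_pow {e : ℤ} {R : RatFunc ℚ} (h : Dv d e R) (n : ℕ) : Dv d (n * e) (R ^ n) := by
  induction n with
  | zero => simpa using dv_one hd
  | succ n ih =>
    rw [pow_succ]
    exact dv_mul' hd ih h (by push_cast; ring)

lemma dv_ratCast_aux (c : ℚ) : Dv d 0 (algebraMap ℚ[X] (RatFunc ℚ) (C c)) := dv_poly hd _

lemma cyc_not_dvd_X_pow (n : ℕ) : ¬ cyclotomic d ℚ ∣ X ^ n := by
  intro h
  have h1 := (cyc_prime hd).dvd_of_dvd_pow h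
  obtain ⟨g, hg⟩ := h1
  have hc0 : (cyclotomic d ℚ).coeff 0 = 1 := cyclotomic_coeff_zero ℚ hd
  have h2 : g.coeff 0 = 0 := by
    have := congrArg (fun p => coeff p 0) hg
    simp only [coeff_X_zero, mul_coeff_zero, hc0, one_mul] at this
    exact this.symm
  obtain ⟨g', hg'⟩ := X_dvd_iff.mpr h2
  rw [hg'] at hg
  have h3 : (X : ℚ[X]) * 1 = X * (cyclotomic d ℚ * g') := by
    rw [mul_one]; calc (X : ℚ[X]) = cyclotomic d ℚ * (X * g') := hg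
      _ = _ := by ring
  have h4 := mul_left_cancel₀ X_ne_zero h3
  exact not_dvd_one hd ⟨g', h4⟩

lemma cyc_dvd_iff (m : ℕ) : cyclotomic d ℚ ∣ X ^ m - 1 ↔ d ∣ m := by
  constructor
  · intro h
    have hζ := Complex.isPrimitiveRoot_exp d (by omega)
    set ζ := Complex.exp (2 * Real.pi * Complex.I / d)
    have h0 : aeval ζ (cyclotomic d ℚ) = 0 := by
      have h1 : (cyclotomic d ℂ).IsRoot ζ := hζ.isRoot_cyclotomic (by omega)
      rw [← map_cyclotomic d (algebraMap ℚ ℂ), IsRoot.def, eval_map_algebraMap] at h1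
      exact h1
    obtain ⟨g, hg⟩ := h
    have h2 := congrArg (aeval ζ) hg
    rw [map_mul, h0, zero_mul] at h2
    simp only [map_sub, map_pow, aeval_X, map_one] at h2
    exact hζ.dvd_of_pow_eq_one m (by linear_combination h2)
  · rintro ⟨k, rfl⟩
    refine (cyclotomic.dvd_X_pow_sub_one d ℚ).trans ?_
    rw [pow_mul]
    simpa using sub_dvd_pow_sub_pow (X ^ d : ℚ[X]) 1 k

lemma dv_to_dvd {e : ℕ} {R : RatFunc ℚ} (h : Dv d e R) : (cyclotomic d ℚ) ^ e ∣ R.num := by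
  obtain ⟨A, B, hB, h⟩ := h
  have h1 : R.num * B = (cyclotomic d ℚ) ^ e * A * R.denom := by
    have hinj := RatFunc.algebraMap_injective ℚ
    apply hinj
    have hden : algebraMap ℚ[X] (RatFunc ℚ) R.denom ≠ 0 := by
      exact RatFunc.algebraMap_ne_zero R.denom_ne_zero
    have hR : R * algebraMap ℚ[X] (RatFunc ℚ) R.denom = algebraMap ℚ[X] (RatFunc ℚ) R.num := by
      have := R.num_div_denom
      rw [div_eq_iff hden] at this
      exact this.symm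
    rw [zpow_natCast] at h
    rw [map_mul, map_mul, map_mul, map_pow, ← hR]
    linear_combination (algebraMap ℚ[X] (RatFunc ℚ) R.denom) * h
  exact (cyc_prime hd).pow_dvd_of_dvd_mul_right e hB ⟨A * R.denom, by rw [h1]; ring⟩

end

/-- `u m = 1 - q^m` for an integer `m`. -/
noncomputable def u (m : ℤ) : RatFunc ℚ := 1 - RatFunc.X ^ m

lemma u_zero : u 0 = 0 := by simp [u]

lemma X_ne : (RatFunc.X : RatFunc ℚ) ≠ 0 := RatFunc.X_ne_zero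

lemma u_nat (m : ℕ) : u m = - algebraMap ℚ[X] (RatFunc ℚ) (X ^ m - 1) := by
  unfold u
  rw [map_sub, map_pow, RatFunc.algebraMap_X, map_one, zpow_natCast]; ring

lemma u_neg (m : ℤ) : u (-m) = - (RatFunc.X ^ (-m) * u m) := by
  unfold u
  rw [mul_sub, ← zpow_add₀ X_ne]; simp

lemma poly_ne {m : ℕ} (hm : 0 < m) : (X ^ m - 1 : ℚ[X]) ≠ 0 :=
  (monic_X_pow_sub_C (1 : ℚ) (by omega)).ne_zero

lemma u_ne {m : ℤ} (hm : m ≠ 0) : u m ≠ 0 := by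
  rcases lt_or_gt_of_ne hm with h | h
  · obtain ⟨k, rfl⟩ : ∃ k : ℕ, m = -(k : ℤ) := ⟨m.natAbs, by omega⟩
    rw [u_neg, u_nat]
    refine neg_ne_zero.mpr (mul_ne_zero (zpow_ne_zero _ X_ne) (neg_ne_zero.mpr ?_))
    exact RatFunc.algebraMap_ne_zero (poly_ne (by omega))
  · obtain ⟨k, rfl⟩ : ∃ k : ℕ, m = (k : ℤ) := ⟨m.natAbs, by omega⟩
    rw [u_nat]
    refine neg_ne_zero.mpr ?_
    exact RatFunc.algebraMap_ne_zero (poly_ne (by omega))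

lemma X_pow_ne_one (m : ℕ) (hm : 0 < m) : (RatFunc.X : RatFunc ℚ) ^ m ≠ 1 := by
  intro h
  have := u_ne (m := m) (by omega)
  apply this
  unfold u
  rw [zpow_natCast, h]; ring

section

variable {d : ℕ} (hd : 1 < d)

include hd

lemma dv_zpow (m : ℤ) : Dv d 0 ((RatFunc.X : RatFunc ℚ) ^ m) := by
  rcases le_total 0 m with h | h
  · obtain ⟨k, rfl⟩ : ∃ k : ℕ, m = (k : ℤ) := ⟨m.natAbs, by omega⟩
    rw [zpow_natCast, ← RatFunc.algebraMap_X, ← map_pow]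
    exact dv_poly hd _
  · obtain ⟨k, rfl⟩ : ∃ k : ℕ, m = -(k : ℤ) := ⟨m.natAbs, by omega⟩
    refine ⟨1, X ^ k, cyc_not_dvd_X_pow hd k, ?_⟩
    rw [map_pow, RatFunc.algebraMap_X, zpow_neg, zpow_natCast, zpow_zero, map_one,
      inv_mul_cancel₀ (pow_ne_zero _ X_ne)]
    ring

lemma dv_u (m : ℤ) : Dv d 0 (u m) := dv_sub hd (dv_one hd) (dv_zpow hd m)

lemma dv_u_of_dvd_nat {m : ℕ} (h : d ∣ m) : Dv d 1 (u m) := by
  rw [u_nat]
  apply dv_neg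
  obtain ⟨g, hg⟩ := (cyc_dvd_iff hd m).mpr h
  refine ⟨g, 1, not_dvd_one hd, ?_⟩
  rw [hg, map_mul, map_one, zpow_one]; ring

lemma dv_u_of_dvd {m : ℤ} (h : (d : ℤ) ∣ m) : Dv d 1 (u m) := by
  rcases le_total 0 m with h0 | h0
  · obtain ⟨k, rfl⟩ : ∃ k : ℕ, m = (k : ℤ) := ⟨m.natAbs, by omega⟩
    exact dv_u_of_dvd_nat hd (by exact_mod_cast h)
  · obtain ⟨k, rfl⟩ : ∃ k : ℕ, m = -(k : ℤ) := ⟨m.natAbs, by omega⟩
    rw [u_neg]
    apply dv_neg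
    exact dv_mul' hd (dv_zpow hd _) (dv_u_of_dvd_nat hd (by
      have := (Int.dvd_neg).mp h
      exact_mod_cast this)) (by norm_num)

lemma dv_u_inv_nat {m : ℕ} (h : ¬ d ∣ m) : Dv d 0 (u m)⁻¹ := by
  rw [u_nat, inv_neg]
  apply dv_neg
  have hm : 0 < m := by
    rcases Nat.eq_zero_or_pos m with h0 | h0
    · exact absurd (h0 ▸ dvd_zero d) h
    · exact h0
  refine ⟨1, X ^ m - 1, fun h' => h ((cyc_dvd_iff hd m).mp h'), ?_⟩
  rw [zpow_zero, map_one, inv_mul_cancel₀]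
  · ring
  · exact RatFunc.algebraMap_ne_zero (poly_ne hm)

lemma dv_u_inv {m : ℤ} (h : ¬ (d : ℤ) ∣ m) : Dv d 0 (u m)⁻¹ := by
  rcases le_total 0 m with h0 | h0
  · obtain ⟨k, rfl⟩ : ∃ k : ℕ, m = (k : ℤ) := ⟨m.natAbs, by omega⟩
    exact dv_u_inv_nat hd (by exact_mod_cast h)
  · obtain ⟨k, rfl⟩ : ∃ k : ℕ, m = -(k : ℤ) := ⟨m.natAbs, by omega⟩
    rw [u_neg, inv_neg, mul_inv, ← zpow_neg, neg_neg]
    apply dv_neg
    exact dv_mul' hd (dv_zpow hd _) (dv_u_inv_nat hd (by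
      intro h'; apply h
      rw [Int.dvd_neg]; exact_mod_cast h')) (by norm_num)

lemma dv_u_inv'_nat {m : ℕ} (hm : 0 < m) : Dv d (-1) (u m)⁻¹ := by
  by_cases h : d ∣ m
  · rw [u_nat, inv_neg]
    apply dv_neg
    obtain ⟨g, hg⟩ := (cyc_dvd_iff hd m).mpr h
    have hsq : Squarefree (X ^ m - 1 : ℚ[X]) := by
      have : (X ^ m - 1 : ℚ[X]).Separable := by
        rw [X_pow_sub_one_separable_iff]; exact_mod_cast (by omega : m ≠ 0)
      exact this.squarefree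
    refine ⟨1, g, ?_, ?_⟩
    · rintro ⟨g', hg'⟩
      have h2 : cyclotomic d ℚ * cyclotomic d ℚ ∣ X ^ m - 1 := ⟨g', by rw [hg, hg']; ring⟩
      exact (cyc_prime hd).not_isUnit (hsq _ h2)
    · have hne : algebraMap ℚ[X] (RatFunc ℚ) (X ^ m - 1) ≠ 0 := by
        exact RatFunc.algebraMap_ne_zero (poly_ne hm)
      rw [map_one, mul_one, zpow_neg, zpow_one, inv_mul_eq_iff_eq_mul₀ hne, hg, map_mul]
      have := cyc_ne (d := d)
      field_simp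
  · exact dv_mono hd (dv_u_inv_nat hd h) (by norm_num)

lemma dv_u_inv' (m : ℤ) : Dv d (-1) (u m)⁻¹ := by
  rcases lt_trichotomy m 0 with h0 | h0 | h0
  · obtain ⟨k, rfl⟩ : ∃ k : ℕ, m = -(k : ℤ) := ⟨m.natAbs, by omega⟩
    rw [u_neg, inv_neg, mul_inv, ← zpow_neg, neg_neg]
    apply dv_neg
    exact dv_mul' hd (dv_zpow hd _) (dv_u_inv'_nat hd (by omega)) (by norm_num)
  · rw [h0, u_zero, inv_zero]; exact dv_zero hd _
  · obtain ⟨k, rfl⟩ : ∃ k : ℕ, m = (k : ℤ) := ⟨m.natAbs, by omega⟩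
    exact dv_u_inv'_nat hd (by omega)

lemma dv_u_sub {a b : ℤ} (h : (d : ℤ) ∣ a - b) : Dv d 1 (u a - u b) := by
  have : u a - u b = RatFunc.X ^ b * u (a - b) := by
    unfold u
    rw [mul_sub, ← zpow_add₀ X_ne]; ring_nf
  rw [this]
  exact dv_mul' hd (dv_zpow hd _) (dv_u_of_dvd hd h) (by norm_num)

end

end Pool.Agent.Lib.MP_659547_nt
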